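import Pool.Agent.P.MP_878f14_gt.Def

/-!
The abelian connection: curvature and compatibility with the transition rotations.
-/

open Filter Topology
open scoped ContDiff

namespace Pool.Agent.P.MP_878f14_gt

section

variable {n : ℕ} {𝔸 : Type} [NormedRing 𝔸] [NormedAlgebra ℝ 𝔸]

/-- The connection with values in any normed algebra. -/
noncomputable def b_B (J : Fin (n + 1) → 𝔸) (α : Fin (n + 1) → Fin 4)
    (p : Fin (n + 1) → ℂ × ℝ) : (Fin (n + 1) → ℂ × ℝ) →L[ℝ] 𝔸 :=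
  ∑ a, ((be (α a) (p a)).comp (ContinuousLinearMap.proj a)).smulRight (J a)

lemma b_apply (J : Fin (n + 1) → 𝔸) (α : Fin (n + 1) → Fin 4) (p v : Fin (n + 1) → ℂ × ℝ) :
    b_B J α p v = ∑ a, be (α a) (p a) (v a) • J a := by
  simp [b_B]

/-- The linear map that builds one summand of the connection. -/
noncomputable def b_L (J : Fin (n + 1) → 𝔸) (a : Fin (n + 1)) :
    (ℂ × ℝ →L[ℝ] ℝ) →L[ℝ] (Fin (n + 1) → ℂ × ℝ) →L[ℝ] 𝔸 :=
  ((ContinuousLinearMap.smulRightL ℝ (Fin (n + 1) → ℂ × ℝ) 𝔸).flip (J a)).comp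
    ((ContinuousLinearMap.compL ℝ (Fin (n + 1) → ℂ × ℝ) (ℂ × ℝ) ℝ).flip
      (ContinuousLinearMap.proj a))

lemma b_L_apply (J : Fin (n + 1) → 𝔸) (a : Fin (n + 1)) (f : ℂ × ℝ →L[ℝ] ℝ)
    (v : Fin (n + 1) → ℂ × ℝ) : b_L J a f v = f (v a) • J a := by
  simp [b_L]

lemma b_eq (J : Fin (n + 1) → 𝔸) (α : Fin (n + 1) → Fin 4) :
    b_B J α = fun p => ∑ a, b_L J a (be (α a) (p a)) := by
  ext1 p
  refine ContinuousLinearMap.ext fun v => ?_
  rw [b_apply, sum_apply]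
  exact Finset.sum_congr rfl fun a _ => (b_L_apply J a _ v).symm

lemma b_comm' {x : 𝔸} (J : Fin (n + 1) → 𝔸) (h : ∀ a, x * J a = J a * x) (s : Fin (n + 1) → ℝ) :
    x * (∑ a, s a • J a) = (∑ a, s a • J a) * x :=
  Commute.sum_right _ _ _ fun a _ => Commute.smul_right (h a) _

lemma b_one (hD : S_SphD) (hE : S_SphE) (J : Fin (n + 1) → 𝔸) (hJ : ∀ a b, J a * J b = J b * J a)
    (α : Fin (n + 1) → Fin 4) (p : Fin (n + 1) → ℂ × ℝ) (hp : p ∈ WW α) :
    ContDiffAt ℝ ∞ (b_B J α) p ∧ ∀ v w, curv (b_B J α) p v w =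
      ∑ a, (-det3 (p a) (v a) (w a) / (2 * rr (p a) ^ 3)) • J a := by
  refine ⟨?_, fun v w => ?_⟩
  · rw [b_eq]
    refine ContDiffAt.sum fun a _ => (b_L J a).contDiff.contDiffAt.comp p ?_
    exact (hD.1 _ _ (hp a)).comp p (contDiffAt_apply ℝ _ a p)
  · have h : HasFDerivAt (b_B J α) (∑ a, (b_L J a).comp
        ((fderiv ℝ (be (α a)) (p a)).comp (ContinuousLinearMap.proj a))) p := by
      rw [b_eq]
      refine HasFDerivAt.fun_sum fun a _ => ?_
      have h1 : HasFDerivAt (be (α a)) (fderiv ℝ (be (α a)) (p a)) (p a) :=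
        ((hD.1 _ _ (hp a)).differentiableAt (by simp)).hasFDerivAt
      have h2 := h1.comp p (hasFDerivAt_apply (𝕜 := ℝ) a p)
      exact (b_L J a).hasFDerivAt.comp p h2
    rw [curv, h.fderiv, b_apply, b_apply,
      b_comm' J (fun b => (b_comm' J (hJ b) _).symm), sub_self, add_zero]
    simp only [sum_apply, ContinuousLinearMap.comp_apply, b_L_apply,
      ContinuousLinearMap.proj_apply]
    rw [← Finset.sum_sub_distrib]
    refine Finset.sum_congr rfl fun a _ => ?_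
    rw [← hE _ _ (hp a), sub_smul]

end

lemma b_arg {z : ℂ} (h : z ∈ Complex.slitPlane) : DifferentiableAt ℝ Complex.arg z := by
  have e : Complex.arg = fun z => Complex.imCLM (Complex.log z) := by
    ext z
    simp [Complex.log_im]
  rw [e]
  exact Complex.imCLM.differentiableAt.comp z
    ((Complex.differentiableAt_log h).restrictScalars ℝ)

lemma b_th {c : Fin 4} {s : ℂ × ℝ} (h : s ∈ V c) : DifferentiableAt ℝ (th c) s := by
  unfold th
  split_ifs with h2 h3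
  · exact (b_arg (h.2.2.2.1 h2)).comp s differentiableAt_fst
  · exact ((b_arg (h.2.2.2.2 h3)).comp s differentiableAt_fst.neg).add_const _
  · exact differentiableAt_const _

lemma b_ta {c d : Fin 4} {s : ℂ × ℝ} (h : s ∈ V c) (h' : s ∈ V d) :
    DifferentiableAt ℝ (ta c d) s := by
  unfold ta
  split_ifs
  · exact b_th h'
  · exact (b_th h).neg
  · exact differentiableAt_const _

lemma b_two {n : ℕ} {𝔸 : Type} [NormedRing 𝔸] [NormedAlgebra ℝ 𝔸] (hD : S_SphD)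
    (J : Fin (n + 1) → 𝔸) (ρ : (Fin (n + 1) → ℝ) → 𝔸) (h1 : ContDiff ℝ ∞ ρ)
    (h2 : ∀ t s, fderiv ℝ ρ t s = (∑ a, s a • J a) * ρ t) (h3 : ∀ t a, ρ t * J a = J a * ρ t)
    (α β : Fin (n + 1) → Fin 4) (p : Fin (n + 1) → ℂ × ℝ) (hp : p ∈ WW α ∩ WW β) :
    DifferentiableAt ℝ (fun y => ρ (TA α β y)) p ∧
      ∀ v, ρ (TA α β p) * b_B J β p v =
        b_B J α p v * ρ (TA α β p) + fderiv ℝ (fun y => ρ (TA α β y)) p v := by
  have h : HasFDerivAt (TA α β) (ContinuousLinearMap.pi fun a =>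
      (fderiv ℝ (ta (α a) (β a)) (p a)).comp (ContinuousLinearMap.proj a)) p :=
    hasFDerivAt_pi.2 fun a => (b_ta (hp.1 a) (hp.2 a)).hasFDerivAt.comp p (hasFDerivAt_apply a p)
  have h4 := ((h1.differentiable (by simp)) (TA α β p)).hasFDerivAt.comp p h
  refine ⟨h4.differentiableAt, fun v => ?_⟩
  have h5 : fderiv ℝ (fun y => ρ (TA α β y)) p = _ := h4.fderiv
  rw [h5, ContinuousLinearMap.comp_apply, h2, b_apply, b_apply, b_comm' J (h3 _), ← add_mul,
    ← Finset.sum_add_distrib]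
  congr 1
  refine Finset.sum_congr rfl fun a _ => ?_
  rw [hD.2 _ _ _ ⟨hp.1 a, hp.2 a⟩, ← add_smul]
  rfl

theorem pB (hD : S_SphD) (hE : S_SphE) (_hY : S_Y) (hRho : S_Rho) : S_B := by
  intro l m n i
  obtain ⟨r1, r2, r3, r4⟩ := hRho l m n i
  exact ⟨fun α p hp => b_one hD hE (fun a => JJ m (i a)) (fun a b => r4 _ _) α p hp,
    fun α β p hp => b_two hD (fun a => JJ m (i a)) (rho m i) r1 r2 (fun t a => r3 t _) α β p hp⟩

end Pool.Agent.P.MP_878f14_gt
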