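import Pool.Agent.P.MP_878f14_gt.Def

namespace Pool.Agent.P.MP_878f14_gt

open Equiv Finset

/-- Pairs of an index and a parity. -/
def cw_e (n : ℕ) : Fin (n + 1) × Fin 2 ≃ Fin (2 * n + 2) :=
  finProdFinEquiv.trans (finCongr (by ring))

theorem cw_e0 {n : ℕ} (t : Fin (n + 1)) : cw_e n (t, 0) = ev t := by
  ext; simp [cw_e, ev]

theorem cw_e1 {n : ℕ} (t : Fin (n + 1)) : cw_e n (t, 1) = od t := by
  ext; simp [cw_e, od]; omega

/-- The permutation maps every pair onto a pair. -/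
def cw_good {n : ℕ} (σ : Perm (Fin (2 * n + 2))) : Prop :=
  ∀ t, ∃ a, (σ (ev t) = ev a ∧ σ (od t) = od a) ∨ (σ (ev t) = od a ∧ σ (od t) = ev a)

theorem cw_struct {n : ℕ} {σ : Perm (Fin (2 * n + 2))} (h : cw_good σ) :
    ∃ (π : Perm (Fin (n + 1))) (f : Fin (n + 1) → Perm (Fin 2)),
      Perm.sign σ = ∏ t, Perm.sign (f t) ∧ ∀ t,
        (f t = 1 ∧ σ (ev t) = ev (π t) ∧ σ (od t) = od (π t)) ∨
        (f t = swap 0 1 ∧ σ (ev t) = od (π t) ∧ σ (od t) = ev (π t)) := by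
  classical
  choose p hp using h
  have hi : Function.Injective p := by
    intro t t' e
    have h1 := hp t
    have h2 := hp t'
    rw [← e] at h2
    have h3 : ev t = ev t' ∨ ev t = od t' := by
      rcases h1 with ⟨a, -⟩ | ⟨a, -⟩ <;> rcases h2 with ⟨b, c⟩ | ⟨b, c⟩
      · exact Or.inl (σ.injective (a.trans b.symm))
      · exact Or.inr (σ.injective (a.trans c.symm))
      · exact Or.inr (σ.injective (a.trans c.symm))
      · exact Or.inl (σ.injective (a.trans b.symm))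
    simp only [ev, od, Fin.mk.injEq] at h3
    exact Fin.ext (by omega)
  let π : Perm (Fin (n + 1)) := Equiv.ofBijective p (Finite.injective_iff_bijective.1 hi)
  have hf : ∀ t, ∃ f : Perm (Fin 2), (f = 1 ∧ σ (ev t) = ev (π t) ∧ σ (od t) = od (π t)) ∨
      (f = swap 0 1 ∧ σ (ev t) = od (π t) ∧ σ (od t) = ev (π t)) := fun t =>
    (hp t).elim (fun h => ⟨1, Or.inl ⟨rfl, h⟩⟩) fun h => ⟨swap 0 1, Or.inr ⟨rfl, h⟩⟩
  choose f hf using hf
  refine ⟨π, f, ?_, hf⟩
  have key : Perm.sign ((prodCongrLeft fun _ : Fin 2 => π) * prodCongrRight f :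
      Perm (Fin (n + 1) × Fin 2)) = Perm.sign σ := by
    refine Perm.sign_eq_sign_of_equiv _ _ (cw_e n) ?_
    rintro ⟨t, b⟩
    change cw_e n (π t, f t b) = σ (cw_e n (t, b))
    rcases hf t with ⟨h1, h2, h3⟩ | ⟨h1, h2, h3⟩ <;> fin_cases b <;>
      simp [h1, h2, h3, cw_e0, cw_e1]
  rw [← key, map_mul, Perm.sign_prodCongrLeft, Perm.sign_prodCongrRight, Fin.prod_univ_two,
    Int.units_mul_self, one_mul]

theorem pCW : S_CW := by
  classical
  intro n
  refine ⟨((univ.filter fun σ : Perm (Fin (2 * n + 2)) => cw_good σ).card : ℝ), ?_, ?_⟩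
  · refine Nat.cast_ne_zero.2 (card_ne_zero.2 ⟨1, ?_⟩)
    exact mem_filter.2 ⟨mem_univ _, fun t => ⟨t, Or.inl ⟨rfl, rfl⟩⟩⟩
  · intro 𝔸 _ _ P hP c X M h1 h2
    rw [mul_assoc, ← nsmul_eq_mul, ← sum_const, sum_filter]
    refine sum_congr rfl fun σ _ => ?_
    split_ifs with h
    · obtain ⟨π, f, hs, hf⟩ := cw_struct h
      have e : (fun t => M (σ (ev t)) (σ (od t))) =
          fun t => ((((Perm.sign (f t) : ℤˣ) : ℤ) : ℝ) * c (π t)) • X (π t) := by
        funext t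
        rcases hf t with ⟨a, b, d⟩ | ⟨a, b, d⟩
        · rw [a, b, d, (h1 _).1]; simp
        · rw [a, b, d, (h1 _).2]; simp
      have s : (((Perm.sign σ : ℤˣ) : ℤ) : ℝ) = ∏ t, (((Perm.sign (f t) : ℤˣ) : ℤ) : ℝ) := by
        rw [hs]; push_cast; rfl
      have s2 : (((Perm.sign σ : ℤˣ) : ℤ) : ℝ) * (((Perm.sign σ : ℤˣ) : ℤ) : ℝ) = 1 := by
        rw [← Int.cast_mul, ← Units.val_mul, Int.units_mul_self]; simp
      rw [e, P.map_smul_univ, hP π X, prod_mul_distrib, ← s, Equiv.prod_comp π c, smul_eq_mul,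
        ← mul_assoc, ← mul_assoc, s2, one_mul]
    · simp only [cw_good, not_forall, not_exists, not_or] at h
      obtain ⟨t, ht⟩ := h
      rw [P.map_coord_zero t (h2 _ _ ht), mul_zero]

end Pool.Agent.P.MP_878f14_gt
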