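import Pool.Agent.P.MP_878f14_gt.Def

open Filter Topology MeasureTheory
open scoped ContDiff

namespace Pool.Agent.P.MP_878f14_gt

theorem f_ne {n : ℕ} (a : Fin (n + 1)) : ev a ≠ od a := by
  simp [ev, od]

theorem f_rr (n : ℕ) (x : Fin (2 * n + 2) → ℝ) (a : Fin (n + 1)) :
    Complex.normSq (FF n x a).1 + (FF n x a).2 ^ 2 = 1 := by
  have : Complex.normSq (Complex.exp (Complex.I * x (od a))) = 1 := by
    rw [Complex.normSq_eq_norm_sq, Complex.norm_exp_I_mul_ofReal]
    norm_num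
  simp only [FF, map_mul, this, Complex.normSq_ofReal]
  nlinarith [Real.sin_sq_add_cos_sq (x (ev a))]

theorem f_smooth (n : ℕ) : ContDiff ℝ ∞ (FF n) := by
  refine contDiff_pi.2 fun a => ?_
  have h1 : ∀ s : Fin (2 * n + 2), ContDiff ℝ ∞ fun x : Fin (2 * n + 2) → ℝ => x s :=
    fun s => contDiff_apply ℝ ℝ s
  have h2 : ContDiff ℝ ∞ fun t : ℝ => (t : ℂ) := Complex.ofRealCLM.contDiff
  refine ContDiff.prodMk (ContDiff.mul (h2.comp (h1 _).sin) ?_) (h1 _).cos
  exact (Complex.contDiff_exp (𝕜 := ℝ)).comp (contDiff_const.mul (h2.comp (h1 _)))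

theorem pF : S_F := by
  intro n
  refine ⟨f_smooth n, fun x a h => ?_, fun x a => by simp [rr, f_rr], fun x s a => ?_⟩
  · have := f_rr n x a
    rw [h] at this
    simp at this
  · have hd := ((f_smooth n).differentiable (by simp) x).hasFDerivAt
    have h1 : HasDerivAt (fun t : ℝ => x + t • (Pi.single s 1 : Fin (2 * n + 2) → ℝ))
        (Pi.single s 1) 0 := by
      simpa using ((hasDerivAt_id (0 : ℝ)).smul_const
        (Pi.single s 1 : Fin (2 * n + 2) → ℝ)).const_add x
    have h2 : HasDerivAt (fun t : ℝ => FF n (x + t • (Pi.single s 1 : Fin (2 * n + 2) → ℝ)) a)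
        (dF n x s a) 0 := by
      have h3 : HasFDerivAt (FF n) (fderiv ℝ (FF n) x)
          (x + (0 : ℝ) • (Pi.single s 1 : Fin (2 * n + 2) → ℝ)) := by simpa using hd
      exact (hasDerivAt_pi.1 (h3.comp_hasDerivAt (0 : ℝ) h1)) a
    have h4 : ∀ j : Fin (2 * n + 2), HasDerivAt
        (fun t : ℝ => (x + t • (Pi.single s 1 : Fin (2 * n + 2) → ℝ)) j)
        ((Pi.single s 1 : Fin (2 * n + 2) → ℝ) j) 0 := hasDerivAt_pi.1 h1
    have h5 := (((h4 (ev a)).sin.ofReal_comp).mul
      (((h4 (od a)).ofReal_comp.const_mul Complex.I).cexp)).prodMk (h4 (ev a)).cos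
    rw [h2.unique h5]
    have hne := f_ne a
    by_cases e1 : s = ev a
    · subst e1
      simp [hne.symm]
    · by_cases e2 : s = od a
      · subst e2
        simp [hne, e1]
        ring
      · simp [e1, e2, Ne.symm e1, Ne.symm e2]

end Pool.Agent.P.MP_878f14_gt
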