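import Pool.Agent.P.MP_878f14_gt.Def

open Filter Topology MeasureTheory
open scoped ContDiff

namespace Pool.Agent.P.MP_878f14_gt

theorem flow_rho {l n : ℕ} (m : ℕ) (i : Fin (n + 1) → Fin l) (t : Fin (n + 1) → ℝ) (v : Tr l m) :
    rho m i t v = (fun j => Complex.exp (Complex.I *
        ((∑ a ∈ Finset.univ.filter (fun a => i a = j), t a : ℝ) : ℂ)) * v.1 j, v.2) := rfl

theorem flow_R {l m n : ℕ} (D : Data l m n) (θ : Fin (n + 1) → ℝ) (v : Tr l m) :
    R D θ v = rho m D.i (fun a => D.u a v * θ a) v := rfl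

theorem flow_empty {l n : ℕ} (i : Fin (n + 1) → Fin l) (t : Fin (n + 1) → ℝ) (j : Fin l)
    (hj : ∀ b, i b ≠ j) : Complex.exp (Complex.I *
        ((∑ a ∈ Finset.univ.filter (fun a => i a = j), t a : ℝ) : ℂ)) = 1 := by
  rw [Finset.filter_false_of_mem fun a _ => hj a]
  simp

theorem flow_u {l m n : ℕ} (D : Data l m n) (t : Fin (n + 1) → ℝ) (v : Tr l m) (a : Fin (n + 1)) :
    D.u a (rho m D.i t v) = D.u a v := by
  rw [flow_rho]
  exact D.inv a v _ (fun j => Complex.norm_exp_I_mul_ofReal _) fun j hj => flow_empty D.i t j hj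

theorem flow_add {l n : ℕ} (m : ℕ) (i : Fin (n + 1) → Fin l) (t t' : Fin (n + 1) → ℝ)
    (v : Tr l m) : rho m i t (rho m i t' v) = rho m i (fun a => t a + t' a) v := by
  rw [flow_rho, flow_rho, flow_rho]
  refine Prod.ext (funext fun j => ?_) rfl
  simp only
  rw [← mul_assoc, ← Complex.exp_add, Finset.sum_add_distrib]
  push_cast
  ring_nf

theorem pFlow : S_Flow := by
  intro l m n D
  have hu : ∀ θ v a, D.u a (R D θ v) = D.u a v := fun θ v a => by rw [flow_R, flow_u]
  refine ⟨?_, fun θ θ' v => ?_, fun v => ?_, hu, fun θ t v a => by rw [hu, flow_u],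
    fun θ μ v h => ?_, fun θ θ' v h => ?_, fun θ θ' t v h => ?_⟩
  · unfold R
    refine ContDiff.prodMk (contDiff_pi.2 fun j => ContDiff.mul ?_ ?_) contDiff_snd.snd
    · refine (Complex.contDiff_exp (𝕜 := ℝ)).comp (contDiff_const.mul ?_)
      have h : ContDiff ℝ ∞ fun q : (Fin (n + 1) → ℝ) × Tr l m =>
          ∑ a ∈ Finset.univ.filter (fun a => D.i a = j), D.u a q.2 * q.1 a :=
        ContDiff.sum fun a _ => ((D.sm a).comp contDiff_snd).mul
          ((contDiff_apply ℝ ℝ a).comp contDiff_fst)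
      exact Complex.ofRealCLM.contDiff.comp h
    · exact (contDiff_apply ℝ ℂ j).comp contDiff_snd.fst
  · rw [flow_R D θ]
    simp only [hu]
    rw [flow_R, flow_add, flow_R]
    simp only [Pi.add_apply, mul_add]
  · rw [flow_R, flow_rho]
    simp
  · rw [flow_R, flow_rho]
    refine ⟨fun a => ?_, fun j hj => ?_, h.2.2⟩
    · rw [← h.1 a]
      simp only [map_mul]
      rw [Complex.normSq_eq_norm_sq (Complex.exp _), Complex.norm_exp_I_mul_ofReal]
      ring
    · simp only
      rw [flow_empty D.i _ j hj, one_mul, h.2.1 j hj]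
  · choose k hk using h
    rw [flow_R, flow_R, flow_rho, flow_rho]
    refine Prod.ext (funext fun j => ?_) rfl
    simp only [hk]
    congr 1
    rw [Finset.sum_add_distrib, ← Finset.mul_sum, Complex.exp_eq_exp_iff_exists_int]
    refine ⟨∑ a ∈ Finset.univ.filter (fun a => D.i a = j), k a, ?_⟩
    push_cast
    ring
  · rw [flow_R D θ]
    simp only [flow_u]
    rw [flow_add, flow_R]
    simp only [h]

end Pool.Agent.P.MP_878f14_gt
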