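import Pool.Agent.P.MP_878f14_gt.Def

/-! Curvature of a gauge transform. -/

open Filter Topology
open scoped ContDiff

namespace Pool.Agent.P.MP_878f14_gt

theorem pGaugeA : S_GaugeA := by
  intro E 𝔸 _ _ _ _ k k' B p hk hk' hB he
  have hdk : ContDiffAt ℝ ∞ (fderiv ℝ k) p := hk.fderiv_right (m := ∞) le_rfl
  have hg : ContDiffAt ℝ ∞ (gauge k k' B) p := by
    have a1 : ContDiffAt ℝ ∞ (fun y => ContinuousLinearMap.mul ℝ 𝔸 (k y)) p :=
      (ContinuousLinearMap.mul ℝ 𝔸).contDiff.contDiffAt.comp p hk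
    have a2 : ContDiffAt ℝ ∞ (fun y => (ContinuousLinearMap.mul ℝ 𝔸).flip (k' y)) p :=
      (ContinuousLinearMap.mul ℝ 𝔸).flip.contDiff.contDiffAt.comp p hk'
    exact (a2.clm_comp (a1.clm_comp hB)).sub (a2.clm_comp hdk)
  refine ⟨hg, fun v w => ?_⟩
  have h0 : (∞ : WithTop ℕ∞) ≠ 0 := by simp
  have dk := (hk.differentiableAt h0).hasFDerivAt
  have dk' := (hk'.differentiableAt h0).hasFDerivAt
  have dB := (hB.differentiableAt h0).hasFDerivAt
  have ddk := (hdk.differentiableAt h0).hasFDerivAt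
  obtain ⟨-, h2⟩ := he.self_of_nhds
  have h3 : ∀ x, fderiv ℝ k' p x = -(k' p * fderiv ℝ k p x * k' p) := fun x => by
    have a1 : HasFDerivAt (fun y => k y * k' y) (0 : E →L[ℝ] 𝔸) p :=
      (hasFDerivAt_const (1 : 𝔸) p).congr_of_eventuallyEq (he.mono fun y hy => hy.1)
    have a2 : k p * fderiv ℝ k' p x + fderiv ℝ k p x * k' p = 0 := by
      simpa using DFunLike.congr_fun ((dk.fun_mul' dk').unique a1) x
    rw [mul_assoc, ← mul_neg, ← eq_neg_of_add_eq_zero_left a2, ← mul_assoc, h2, one_mul]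
  have h4 : ∀ x y, fderiv ℝ (gauge k k' B) p x y
      = fderiv ℝ k p x * B p y * k' p + k p * fderiv ℝ B p x y * k' p
        + k p * B p y * fderiv ℝ k' p x
        - (fderiv ℝ (fderiv ℝ k) p x y * k' p + fderiv ℝ k p y * fderiv ℝ k' p x) := fun x y => by
    have a1 := (hg.differentiableAt h0).hasFDerivAt.clm_apply (hasFDerivAt_const y p)
    have a2 := ((dk.fun_mul' (dB.clm_apply (hasFDerivAt_const y p))).fun_mul' dk').fun_sub
      ((ddk.clm_apply (hasFDerivAt_const y p)).fun_mul' dk')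
    have a3 := DFunLike.congr_fun (HasFDerivAt.unique (f := fun z => gauge k k' B z y) a1 a2) x
    simp only [add_apply, sub_apply, smul_apply, ContinuousLinearMap.comp_apply, zero_apply,
      map_zero, ContinuousLinearMap.flip_apply, zero_add, smul_eq_mul, op_smul_eq_mul] at a3
    rw [a3]
    noncomm_ring
  have h5 : fderiv ℝ (fderiv ℝ k) p v w = fderiv ℝ (fderiv ℝ k) p w v :=
    (hk.isSymmSndFDerivAt (by
      rw [minSmoothness_of_isRCLikeNormedField]
      exact WithTop.coe_le_coe.2 (le_top : (2 : ℕ∞) ≤ ⊤))).eq v w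
  have h6 : ∀ y, gauge k k' B p y = k p * B p y * k' p - fderiv ℝ k p y * k' p := fun _ => rfl
  have h7 : ∀ a : 𝔸, k' p * (k p * a) = a := fun a => by rw [← mul_assoc, h2, one_mul]
  simp only [curv, h4, h3, h5, h6, mul_sub, sub_mul, mul_add, add_mul, mul_neg, mul_assoc, h7]
  abel

end Pool.Agent.P.MP_878f14_gt
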