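import Pool.Agent.P.MP_878f14_gt.Def

open Filter Topology MeasureTheory
open scoped ContDiff

namespace Pool.Agent.P.MP_878f14_gt

theorem gaugeB_inv {E 𝔸 : Type} [NormedAddCommGroup E] [NormedSpace ℝ E] [NormedRing 𝔸]
    [NormedAlgebra ℝ 𝔸] {k k' : E → 𝔸} {p : E} (hk : DifferentiableAt ℝ k p)
    (hk' : DifferentiableAt ℝ k' p) (h : ∀ᶠ y in 𝓝 p, k y * k' y = 1 ∧ k' y * k y = 1) (v : E) :
    fderiv ℝ k' p v = -(k' p * fderiv ℝ k p v * k' p) := by
  have h1 : (fun y => k y * k' y) =ᶠ[𝓝 p] fun _ => 1 := h.mono fun y hy => hy.1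
  have h2 := (hk.hasFDerivAt.fun_mul' hk'.hasFDerivAt).fderiv
  rw [h1.fderiv_eq] at h2
  have h3 := congrArg (fun L : E →L[ℝ] 𝔸 => L v) h2
  simp at h3
  have h4 := h.self_of_nhds.2
  have h5 : k p * fderiv ℝ k' p v = -(fderiv ℝ k p v * k' p) := eq_neg_of_add_eq_zero_left h3.symm
  calc fderiv ℝ k' p v = k' p * (k p * fderiv ℝ k' p v) := by rw [← mul_assoc, h4, one_mul]
    _ = _ := by rw [h5]; noncomm_ring

theorem pGaugeB : S_GaugeB := by
  intro E 𝔸 _ _ _ _ k₁ k₁' k₂ k₂' ρ g B₁ B₂ p h1 h2 h2' hρ e1 e2 hg hB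
  have hd := (h1.hasFDerivAt.fun_mul' hρ.hasFDerivAt).fun_mul' h2'.hasFDerivAt
  have hg' : g =ᶠ[𝓝 p] fun y => k₁ y * ρ y * k₂' y := hg
  have hd' := hd.congr_of_eventuallyEq hg'
  refine ⟨hd'.differentiableAt, fun v => ?_⟩
  rw [hd'.fderiv, hg.self_of_nhds]
  have e3 := e2.self_of_nhds.2
  have e4 := gaugeB_inv h2 h2' e2 v
  have e5 := hB v
  simp only [gauge, ContinuousLinearMap.sub_apply, ContinuousLinearMap.comp_apply,
    ContinuousLinearMap.mulLeftRight_apply, ContinuousLinearMap.flip_apply,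
    ContinuousLinearMap.mul_apply', ContinuousLinearMap.add_apply, ContinuousLinearMap.smul_apply,
    smul_eq_mul, MulOpposite.smul_eq_mul_unop, MulOpposite.unop_op, e4]
  have a1 : ∀ X : 𝔸, k₂' p * (k₂ p * X) = X := fun X => by rw [← mul_assoc, e3, one_mul]
  have a2 : ∀ X : 𝔸, k₁' p * (k₁ p * X) = X := fun X => by rw [← mul_assoc, e1, one_mul]
  have a3 : ∀ X : 𝔸, ρ p * (B₂ p v * X) = B₁ p v * (ρ p * X) + fderiv ℝ ρ p v * X := fun X => by
    rw [← mul_assoc, e5]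
    noncomm_ring
  simp only [mul_sub, sub_mul, mul_add, add_mul, mul_assoc, a1, a2, a3, mul_neg]
  abel

end Pool.Agent.P.MP_878f14_gt
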