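import Pool.Agent.P.MP_878f14_gt.Def

/-!
Package H: a linear map whose kernel consists of block constant vectors.
-/

open Module

namespace Pool.Agent.P.MP_878f14_gt

theorem pH : S_H := by
  intro l m n i h
  classical
  let S := Finset.univ.image i
  have hm : ∀ a, i a ∈ S := fun a => Finset.mem_image_of_mem i (Finset.mem_univ a)
  let κ : (S → ℝ) →ₗ[ℝ] (Fin (n + 1) → ℝ) :=
    { toFun := fun x a => x ⟨i a, hm a⟩
      map_add' := fun _ _ => rfl
      map_smul' := fun _ _ => rfl }
  have hκ : Function.Injective κ := by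
    intro x y hxy
    funext ⟨j, hj⟩
    obtain ⟨a, -, rfl⟩ := Finset.mem_image.1 hj
    exact congrFun hxy a
  let φ : Tr l m →ₗ[ℝ] (S → ℂ) :=
    { toFun := fun v j => v.1 j
      map_add' := fun _ _ => rfl
      map_smul' := fun _ _ => rfl }
  have h1 : finrank ℝ (LinearMap.range κ) = S.card := by
    rw [LinearMap.finrank_range_of_inj hκ]; simp
  have h2 := Submodule.finrank_quotient_add_finrank (LinearMap.range κ)
  have h3 := LinearMap.finrank_range_add_finrank_ker φ
  have h4 : finrank ℝ (LinearMap.range φ) ≤ 2 * S.card := by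
    refine (Submodule.finrank_le _).trans ?_
    rw [Module.finrank_pi_fintype]
    simp [mul_comm]
  have h5 : finrank ℝ (Tr l m) = 2 * l + m := by
    rw [Module.finrank_prod, Module.finrank_pi_fintype]
    simp [mul_comm]
  have h6 : finrank ℝ (Fin (n + 1) → ℝ) = n + 1 := by simp
  have h7 : finrank ℝ ((Fin (n + 1) → ℝ) ⧸ LinearMap.range κ) ≤ finrank ℝ (LinearMap.ker φ) := by
    change n + 1 + S.card ≤ _ at h
    omega
  obtain ⟨f, hf⟩ := finrank_le_iff_exists_linearMap.1 h7
  refine ⟨LinearMap.toContinuousLinearMap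
    ((LinearMap.ker φ).subtype ∘ₗ f ∘ₗ (LinearMap.range κ).mkQ), fun μ a => ?_,
    fun μ hμ a b hab => ?_⟩
  · exact congrFun (LinearMap.mem_ker.1 (f ((LinearMap.range κ).mkQ μ)).2) ⟨i a, hm a⟩
  · have e1 : f ((LinearMap.range κ).mkQ μ) = 0 := Subtype.ext hμ
    have e2 : (LinearMap.range κ).mkQ μ = 0 := hf (e1.trans (map_zero f).symm)
    obtain ⟨x, rfl⟩ := (Submodule.Quotient.mk_eq_zero _).1 e2
    exact congrArg x (Subtype.ext hab)

end Pool.Agent.P.MP_878f14_gt
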