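import Pool.Agent.P.MP_878f14_gt.Def

/-!
Package Hae: the toric data define a Haefliger structure.
-/

open Filter Topology
open scoped ContDiff

namespace Pool.Agent.P.MP_878f14_gt

theorem hae_near {l m n : ℕ} (D : Data l m n) {μ : Fin (n + 1) → ℝ}
    (hμ : ∀ a, 0 ≤ μ a ∧ μ a ≤ 1) {v : Tr l m} (hv : On D.i D.H μ v) :
    ∀ᶠ y in 𝓝 v, ∀ a, (μ a ≤ 1 / 3 → D.u a y = 1) ∧ (2 / 3 ≤ μ a → D.u a y = 0) := by
  refine eventually_all.2 fun a => Eventually.and ?_ ?_
  · by_cases h : μ a ≤ 1 / 3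
    · exact ((D.loc μ hμ v hv a).1 h).mono fun y hy _ => hy
    · exact Eventually.of_forall fun y h' => absurd h' h
  · by_cases h : 2 / 3 ≤ μ a
    · exact ((D.loc μ hμ v hv a).2 h).mono fun y hy _ => hy
    · exact Eventually.of_forall fun y h' => absurd h' h

theorem pHae (hC : S_SphC) (hFl : S_Flow) (hY : S_Y) : S_Hae := by
  intro l m n D
  obtain ⟨F1, F2, F3, -, -, F6, F7, F8⟩ := hFl l m n D
  obtain ⟨Y1, Y2, Y3, Y4⟩ := hY l m n D
  obtain ⟨C1, C2, C3⟩ := hC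
  refine ⟨⟨WW, ff D, gam D, Y1, Y2, ?_, ?_, ?_, ?_, ?_, ?_⟩, rfl, rfl, rfl⟩
  · intro α p hp
    have h := Y3 α p hp
    exact (F1.contDiffAt.comp p (h.2.1.prodMk h.1)).contDiffWithinAt
  · intro α β p _
    have h : ContDiff ℝ ∞ (fun y : Tr l m => (DL α β p, y)) := contDiff_const.prodMk contDiff_id
    have h2 := F1.comp h
    simp only [Function.comp_def] at h2
    exact Eventually.of_forall fun y => h2.contDiffAt
  · intro α β p hp
    have h := Y3 β p hp.2
    have hn := (hae_near D h.2.2.2 h.2.2.1).self_of_nhds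
    unfold gam ff
    rw [F2, (Y4 α β p hp).1]
    refine (F8 _ _ _ _ fun a => ?_).symm
    exact C2 (α a) (β a) (p a) ⟨hp.1 a, hp.2 a⟩ _ (hn a).1 (hn a).2
  · intro α β p hp
    refine (Y4 α β p hp).2.2.mono fun p' hp' => ?_
    unfold gam
    rw [hp']
  · intro α p _
    have e : DL α α p = 0 := funext fun a => C1 _ _
    refine Eventually.of_forall fun y => ?_
    unfold gam
    rw [e, F3]; rfl
  · intro α β γ p hp
    have h := Y3 γ p hp.2
    refine (hae_near D h.2.2.2 (F6 (TH γ p) _ _ h.2.2.1)).mono fun y hy => ?_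
    simp only [gam, Function.comp_apply]
    rw [F2]
    exact F7 _ _ _ fun a =>
      C3 (α a) (β a) (γ a) (p a) ⟨⟨hp.1.1 a, hp.1.2 a⟩, hp.2 a⟩ _ (hy a).1 (hy a).2

end Pool.Agent.P.MP_878f14_gt
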