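import Pool.Agent.P.MP_878f14_gt.Def

/-!
Choice of a monomial with small support.
-/

namespace Pool.Agent.P.MP_878f14_gt

theorem idx_rot {l : ℕ} (m : ℕ) (x : Fin l → ℝ) : rot m x = ∑ j, x j • JJ m j := by
  refine ContinuousLinearMap.ext fun v => ?_
  rw [sum_apply]
  refine Prod.ext ?_ ?_
  · funext k
    rw [Prod.fst_sum, Finset.sum_apply, Finset.sum_eq_single k]
    · simp [JJ, rot, mul_left_comm, mul_assoc]
    · intro j _ hj
      simp [JJ, rot, Pi.single_eq_of_ne hj.symm]
    · simp
  · rw [Prod.snd_sum]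
    simp [JJ, rot]

/-- Complex conjugation of the coordinate `j`. -/
noncomputable def idxC {l : ℕ} (m : ℕ) (j : Fin l) : Tr l m →L[ℝ] Tr l m :=
  LinearMap.toContinuousLinearMap
    { toFun := fun v => (fun k => if k = j then starRingEnd ℂ (v.1 k) else v.1 k, v.2)
      map_add' := fun v w => by
        ext k
        · by_cases h : k = j <;> simp [h]
        · simp
      map_smul' := fun c v => by
        ext k
        · by_cases h : k = j <;> simp [h]
        · simp }

theorem idxC_sq {l : ℕ} (m : ℕ) (j : Fin l) : idxC m j * idxC m j = 1 := by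
  refine ContinuousLinearMap.ext fun v => Prod.ext (funext fun k => ?_) ?_
  · by_cases h : k = j <;> simp [idxC, h]
  · simp [idxC]

theorem idxC_conj {l : ℕ} (m : ℕ) (j k : Fin l) :
    idxC m j * JJ m k * idxC m j = (if k = j then (-1 : ℝ) else 1) • JJ m k := by
  refine ContinuousLinearMap.ext fun v => Prod.ext (funext fun a => ?_) ?_
  · by_cases h : a = j
    · subst h
      by_cases h' : k = a
      · subst h'
        simp [idxC, JJ, rot]
      · simp [idxC, JJ, rot, h', Ne.symm h']
    · by_cases h' : k = j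
      · subst h'
        simp [idxC, JJ, rot, h]
      · simp [idxC, JJ, rot, h, h']
  · by_cases h' : k = j <;> simp [idxC, JJ, rot, h']

theorem pIdx : S_Idx := by
  intro l m n P hP x hx hn
  rw [idx_rot, P.map_sum (g := fun (_ : Fin (n + 1)) (j : Fin l) => x j • JJ m j)] at hx
  obtain ⟨i, -, hi⟩ := Finset.exists_ne_zero_of_sum_ne_zero hx
  rw [P.map_smul_univ (fun t => x (i t)) (fun t => JJ m (i t)), smul_eq_mul] at hi
  obtain ⟨h1, h2⟩ := mul_ne_zero_iff.1 hi
  refine ⟨i, h2, le_trans (Nat.add_le_add_left (le_min ?_ ?_) _) hn⟩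
  · refine Finset.card_le_card fun j hj => ?_
    obtain ⟨t, -, rfl⟩ := Finset.mem_image.1 hj
    exact Finset.mem_filter.2 ⟨Finset.mem_univ _,
      Finset.prod_ne_zero_iff.1 h1 t (Finset.mem_univ t)⟩
  · have key : ∀ j ∈ Finset.univ.image i, 2 ≤ (Finset.univ.filter fun t => i t = j).card := by
      intro j hj
      have e := hP ⟨idxC m j, idxC m j, idxC_sq m j, idxC_sq m j⟩ fun t => JJ m (i t)
      simp only [idxC_conj] at e
      rw [P.map_smul_univ (fun t => if i t = j then (-1 : ℝ) else 1) (fun t => JJ m (i t)),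
        smul_eq_mul, Finset.prod_ite, Finset.prod_const, Finset.prod_const, one_pow,
        mul_one] at e
      have e' : (-1 : ℝ) ^ (Finset.univ.filter fun t => i t = j).card = 1 :=
        mul_right_cancel₀ h2 (e.trans (one_mul _).symm)
      have ev' := (neg_one_pow_eq_one_iff_even (by norm_num)).1 e'
      obtain ⟨t, -, rfl⟩ := Finset.mem_image.1 hj
      have pos : 0 < (Finset.univ.filter fun s => i s = i t).card :=
        Finset.card_pos.2 ⟨t, by simp⟩
      obtain ⟨r, hr⟩ := ev'
      omega
    have h3 := Finset.card_eq_sum_card_image i (Finset.univ : Finset (Fin (n + 1)))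
    have h4 := Finset.card_nsmul_le_sum _ _ 2 key
    rw [Finset.card_univ, Fintype.card_fin] at h3
    rw [smul_eq_mul] at h4
    omega

end Pool.Agent.P.MP_878f14_gt
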