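import Pool.Agent.P.MP_878f14_gt.Def

open Filter Topology MeasureTheory
open scoped ContDiff

namespace Pool.Agent.P.MP_878f14_gt

theorem pInt : S_Int := by
  intro n
  have hcont : Continuous fun x : Fin (2 * n + 2) → ℝ => ∏ a : Fin (n + 1), Real.sin (x (ev a)) := by
    fun_prop
  have hb : ∀ a : Fin (n + 1), bx n (ev a) = Real.pi := fun a => by
    simp [bx, ev]
  have hbpos : ∀ s, Real.pi ≤ bx n s := fun s => by
    unfold bx
    split_ifs
    · exact le_rfl
    · linarith [Real.pi_pos]
  apply ne_of_gt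
  rw [setIntegral_pos_iff_support_of_nonneg_ae]
  · have hopen : IsOpen (Set.pi Set.univ fun _ : Fin (2 * n + 2) => Set.Ioo (0 : ℝ) Real.pi) :=
      isOpen_set_pi Set.finite_univ fun _ _ => isOpen_Ioo
    refine lt_of_lt_of_le (hopen.measure_pos volume ⟨fun _ => Real.pi / 2, fun s _ => ?_⟩)
      (measure_mono fun x hx => ⟨?_, ?_, ?_⟩)
    · constructor <;> linarith [Real.pi_pos]
    · refine ne_of_gt (Finset.prod_pos fun a _ => ?_)
      exact Real.sin_pos_of_pos_of_lt_pi (hx _ trivial).1 (hx _ trivial).2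
    · exact fun s => (hx s trivial).1.le
    · exact fun s => (hx s trivial).2.le.trans (hbpos s)
  · filter_upwards [ae_restrict_mem measurableSet_Icc] with x hx
    refine Finset.prod_nonneg fun a _ => Real.sin_nonneg_of_nonneg_of_le_pi (hx.1 _) ?_
    rw [← hb a]
    exact hx.2 _
  · exact hcont.continuousOn.integrableOn_compact isCompact_Icc

end Pool.Agent.P.MP_878f14_gt
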