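import Pool.Agent.P.MP_878f14_gt.Def

/-!
Package K: the frames given by the derivatives of the flows.
-/

open Filter Topology MeasureTheory
open scoped ContDiff

namespace Pool.Agent.P.MP_878f14_gt

variable {l m n : ℕ}

theorem k_diff (hFl : S_Flow) (D : Data l m n) (θ : Fin (n + 1) → ℝ) :
    Differentiable ℝ (R D θ) := by
  have h : ContDiff ℝ ∞ (fun v : Tr l m => R D θ v) :=
    (hFl l m n D).1.comp (f := fun v : Tr l m => (θ, v)) (contDiff_const.prodMk contDiff_id)
  exact h.differentiable (by simp)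

theorem k_chain (hFl : S_Flow) (D : Data l m n) (θ θ' : Fin (n + 1) → ℝ) (v : Tr l m) :
    fderiv ℝ (R D θ) (R D θ' v) * fderiv ℝ (R D θ') v = fderiv ℝ (R D (θ + θ')) v := by
  have e : R D (θ + θ') = R D θ ∘ R D θ' := funext fun w => ((hFl l m n D).2.1 θ θ' w).symm
  rw [e, fderiv_comp v (k_diff hFl D θ _) (k_diff hFl D θ' _)]
  rfl

theorem k_zero (hFl : S_Flow) (D : Data l m n) (v : Tr l m) : fderiv ℝ (R D 0) v = 1 := by
  have e : R D 0 = id := funext fun w => (hFl l m n D).2.2.1 w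
  rw [e, fderiv_id]
  rfl

theorem k_smooth (hFl : S_Flow) (D : Data l m n) {θ : (Fin (n + 1) → ℂ × ℝ) → Fin (n + 1) → ℝ}
    {y : (Fin (n + 1) → ℂ × ℝ) → Tr l m} {p : Fin (n + 1) → ℂ × ℝ} (hθ : ContDiffAt ℝ ∞ θ p)
    (hy : ContDiffAt ℝ ∞ y p) : ContDiffAt ℝ ∞ (fun q => fderiv ℝ (R D (θ q)) (y q)) p := by
  refine ContDiffAt.fderiv (n := ∞) (f := fun q => R D (θ q)) ?_ hy (by simp)
  have h1 : ContDiffAt ℝ ∞ (fun z : (Fin (n + 1) → ℂ × ℝ) × Tr l m => (θ z.1, z.2)) (p, y p) :=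
    (ContDiffAt.comp (f := fun z : (Fin (n + 1) → ℂ × ℝ) × Tr l m => z.1) (p, y p) hθ
      contDiffAt_fst).prodMk contDiffAt_snd
  exact (hFl l m n D).1.contDiffAt.comp (p, y p) h1

theorem pK (hC : S_SphC) (hFl : S_Flow) (hY : S_Y) : S_K := by
  intro l m n D
  obtain ⟨-, -, hY1, hY2⟩ := hY l m n D
  have hinv : ∀ α p, kk D α p * kinv D α p = 1 ∧ kinv D α p * kk D α p = 1 := by
    intro α p
    constructor
    · have h := k_chain hFl D (TH α p) (-TH α p) (ff D α p)
      rw [add_neg_cancel, k_zero hFl] at h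
      have e : R D (-TH α p) (ff D α p) = yy D α p := by
        unfold ff
        rw [(hFl l m n D).2.1, neg_add_cancel, (hFl l m n D).2.2.1]
      rw [e] at h
      exact h
    · have h := k_chain hFl D (-TH α p) (TH α p) (yy D α p)
      rw [neg_add_cancel, k_zero hFl] at h
      exact h
  refine ⟨fun α p hp => ⟨?_, ?_, hinv α p⟩, fun α β p hp => ?_⟩
  · exact k_smooth hFl D (hY1 α p hp).2.1 (hY1 α p hp).1
  · refine k_smooth hFl D (θ := fun q => -TH α q) (hY1 α p hp).2.1.neg ?_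
    exact (hFl l m n D).1.contDiffAt.comp (f := fun q => (TH α q, yy D α q)) p
      ((hY1 α p hp).2.1.prodMk (hY1 α p hp).1)
  · obtain ⟨-, -, hon, hmu⟩ := hY1 β p hp.2
    have hloc := D.loc (fun a => mu (p a)) hmu _ hon
    have hev : ∀ᶠ y in 𝓝 (yy D β p), ∀ a,
        (mu (p a) ≤ 1 / 3 → D.u a y = 1) ∧ (2 / 3 ≤ mu (p a) → D.u a y = 0) := by
      refine eventually_all.2 fun a => Eventually.and ?_ ?_
      · by_cases h : mu (p a) ≤ 1 / 3
        · exact ((hloc a).1 h).mono fun y hy _ => hy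
        · exact Eventually.of_forall fun y hy => absurd hy h
      · by_cases h : 2 / 3 ≤ mu (p a)
        · exact ((hloc a).2 h).mono fun y hy _ => hy
        · exact Eventually.of_forall fun y hy => absurd hy h
    have heq : R D (DL α β p + TH β p) =ᶠ[𝓝 (yy D β p)]
        R D (TH α p) ∘ rho m D.i (TA α β p) := by
      filter_upwards [hev] with y hy
      refine ((hFl l m n D).2.2.2.2.2.2.2 (TH α p) _ (TA α β p) y fun a => ?_).symm
      exact hC.2.1 (α a) (β a) (p a) ⟨hp.1 a, hp.2 a⟩ (D.u a y) (hy a).1 (hy a).2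
    have h1 := k_chain hFl D (DL α β p) (TH β p) (yy D β p)
    rw [heq.fderiv_eq, fderiv_comp _ (k_diff hFl D _ _) (rho m D.i (TA α β p)).differentiableAt,
      ContinuousLinearMap.fderiv, ← (hY2 α β p hp).1] at h1
    have h2 : fderiv ℝ (gam D α β p) (ff D β p) * kk D β p
        = kk D α p * rho m D.i (TA α β p) := h1
    rw [← h2, mul_assoc, (hinv β p).1, mul_one]

end Pool.Agent.P.MP_878f14_gt
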