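import Pool.Agent.P.MP_878f14_gt.Def

open Filter Topology MeasureTheory
open scoped ContDiff

namespace Pool.Agent.P.MP_878f14_gt

theorem m_ev_od {n : ℕ} (a b : Fin (n + 1)) : ev a ≠ od b := by
  simp only [ev, od, ne_eq, Fin.mk.injEq]
  omega

theorem m_ev {n : ℕ} {a b : Fin (n + 1)} (h : ev a = ev b) : a = b := by
  simp only [ev, Fin.mk.injEq] at h
  exact Fin.ext (by omega)

theorem m_od {n : ℕ} {a b : Fin (n + 1)} (h : od a = od b) : a = b := by
  simp only [od, Fin.mk.injEq] at h
  exact Fin.ext (by omega)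

theorem m_swap (s v w : ℂ × ℝ) : det3 s w v = -det3 s v w := by
  unfold det3
  ring

theorem m_self (s v : ℂ × ℝ) : det3 s v v = 0 := by
  unfold det3
  ring

theorem m_zero (s v : ℂ × ℝ) : det3 s 0 v = 0 := by
  simp [det3]

theorem m_zero' (s v : ℂ × ℝ) : det3 s v 0 = 0 := by
  simp [det3]

theorem pM (hF : S_F) : S_M := by
  intro n 𝔸 _ _ X x M hM
  obtain ⟨-, -, hr, hd⟩ := hF n
  have hz : ∀ s a, s ≠ ev a → s ≠ od a → dF n x s a = 0 := fun s a h1 h2 => by
    rw [hd, if_neg h1, if_neg h2]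
  have hdet : ∀ a, det3 (FF n x a) (dF n x (ev a) a) (dF n x (od a) a) = Real.sin (x (ev a)) := by
    intro a
    rw [hd, hd, if_pos rfl, if_neg (m_ev_od a a).symm, if_pos rfl]
    have e1 : (Complex.exp (Complex.I * x (od a))).re = Real.cos (x (od a)) := by
      rw [mul_comm, Complex.exp_ofReal_mul_I_re]
    have e2 : (Complex.exp (Complex.I * x (od a))).im = Real.sin (x (od a)) := by
      rw [mul_comm, Complex.exp_ofReal_mul_I_im]
    simp only [det3, FF, Complex.mul_re, Complex.mul_im, Complex.ofReal_re, Complex.ofReal_im,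
      Complex.I_re, Complex.I_im, e1, e2]
    have s1 := Real.sin_sq_add_cos_sq (x (ev a))
    have s2 := Real.sin_sq_add_cos_sq (x (od a))
    linear_combination (Real.sin (x (ev a))) * s1 +
      (Real.sin (x (ev a)) * (Real.sin (x (ev a)) ^ 2 + Real.cos (x (ev a)) ^ 2)) * s2
  have h1 : ∀ a, M (ev a) (od a) = (-Real.sin (x (ev a)) / 2) • X a := fun a => by
    rw [hM, Finset.sum_eq_single a]
    · rw [hdet, hr]
      norm_num
    · intro b _ hb
      rw [hz (ev a) b (fun h => hb (m_ev h).symm) (m_ev_od a b), m_zero]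
      simp
    · simp
  refine ⟨fun a => ⟨h1 a, ?_⟩, fun s s' h => ?_⟩
  · rw [← h1 a, hM, hM, ← Finset.sum_neg_distrib]
    refine Finset.sum_congr rfl fun b _ => ?_
    rw [m_swap, ← neg_smul]
    congr 1
    ring
  · rw [hM]
    refine Finset.sum_eq_zero fun a _ => ?_
    have : det3 (FF n x a) (dF n x s a) (dF n x s' a) = 0 := by
      by_cases e1 : s = ev a
      · by_cases e2 : s' = ev a
        · rw [e1, e2, m_self]
        · rw [hz s' a e2 (fun e3 => (h a).1 ⟨e1, e3⟩), m_zero']
      · by_cases e2 : s = od a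
        · by_cases e3 : s' = od a
          · rw [e2, e3, m_self]
          · rw [hz s' a (fun e4 => (h a).2 ⟨e2, e4⟩) e3, m_zero']
        · rw [hz s a e1 e2, m_zero]
    rw [this]
    simp

end Pool.Agent.P.MP_878f14_gt
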