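import Pool.Agent.P.MP_878f14_gt.Def

open Filter Topology MeasureTheory
open scoped ContDiff

namespace Pool.Agent.P.MP_878f14_gt

theorem rho_apply {l n : ℕ} (m : ℕ) (i : Fin (n + 1) → Fin l) (t : Fin (n + 1) → ℝ) (v : Tr l m) :
    rho m i t v = (fun j => Complex.exp (Complex.I *
        ((∑ a ∈ Finset.univ.filter (fun a => i a = j), t a : ℝ) : ℂ)) * v.1 j, v.2) := rfl

theorem rho_JJ {l : ℕ} (m : ℕ) (j : Fin l) (v : Tr l m) :
    JJ m j v = (fun k => Complex.I * ((Pi.single j 1 : Fin l → ℝ) k : ℝ) * v.1 k, 0) := rfl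

theorem rho_smooth {l n : ℕ} (m : ℕ) (i : Fin (n + 1) → Fin l) : ContDiff ℝ ∞ (rho m i) := by
  rw [contDiff_clm_apply_iff]
  intro v
  simp only [rho_apply]
  refine ContDiff.prodMk (contDiff_pi.2 fun j => ContDiff.mul ?_ contDiff_const) contDiff_const
  refine (Complex.contDiff_exp (𝕜 := ℝ)).comp (contDiff_const.mul ?_)
  have h : ContDiff ℝ ∞ fun x : Fin (n + 1) → ℝ =>
      ∑ a ∈ Finset.univ.filter (fun a => i a = j), x a :=
    ContDiff.sum fun a _ => contDiff_apply ℝ ℝ a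
  exact Complex.ofRealCLM.contDiff.comp h

theorem rho_aux {l m n : ℕ} (S : Fin l → Finset (Fin (n + 1))) (t s : Fin (n + 1) → ℝ)
    (v : Tr l m) : HasDerivAt (fun r : ℝ => ((fun j => Complex.exp (Complex.I *
        ((∑ a ∈ S j, (t + r • s) a : ℝ) : ℂ)) * v.1 j, v.2) : Tr l m))
      (fun j => Complex.exp (Complex.I * ((∑ a ∈ S j, t a : ℝ) : ℂ)) * (Complex.I *
        ((∑ a ∈ S j, s a : ℝ) : ℂ)) * v.1 j, 0) 0 := by
  have h1 : HasDerivAt (fun r : ℝ => t + r • s) s 0 := by
    simpa using ((hasDerivAt_id (0 : ℝ)).smul_const s).const_add t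
  refine HasDerivAt.prodMk (hasDerivAt_pi.2 fun j => ?_) (hasDerivAt_const (0 : ℝ) v.2)
  have h4 : HasDerivAt (fun r : ℝ => ∑ a ∈ S j, (t + r • s) a) (∑ a ∈ S j, s a) 0 :=
    HasDerivAt.fun_sum fun a _ => hasDerivAt_pi.1 h1 a
  have h5 := ((h4.ofReal_comp.const_mul Complex.I).cexp).mul_const (v.1 j)
  simp only [zero_smul, add_zero] at h5
  exact h5

theorem rho_deriv {l n : ℕ} (m : ℕ) (i : Fin (n + 1) → Fin l) (t s : Fin (n + 1) → ℝ)
    (v : Tr l m) : fderiv ℝ (rho m i) t s v = (fun j => Complex.exp (Complex.I *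
        ((∑ a ∈ Finset.univ.filter (fun a => i a = j), t a : ℝ) : ℂ)) * (Complex.I *
        ((∑ a ∈ Finset.univ.filter (fun a => i a = j), s a : ℝ) : ℂ)) * v.1 j, 0) := by
  have hd := ((rho_smooth m i).differentiable (by simp) t).hasFDerivAt
  have h1 : HasDerivAt (fun r : ℝ => t + r • s) s 0 := by
    simpa using ((hasDerivAt_id (0 : ℝ)).smul_const s).const_add t
  have h3 : HasFDerivAt (rho m i) (fderiv ℝ (rho m i) t) (t + (0 : ℝ) • s) := by
    rw [zero_smul, add_zero]
    exact hd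
  have h4 := HasFDerivAt.comp_hasDerivAt (f := fun r : ℝ => t + r • s) (0 : ℝ) h3 h1
  have h2 := (ContinuousLinearMap.apply ℝ (Tr l m) v).hasFDerivAt.comp_hasDerivAt (0 : ℝ) h4
  have h5 := rho_aux (fun j => Finset.univ.filter (fun a => i a = j)) t s v
  exact HasDerivAt.unique h2 h5

theorem rho_sum {l n : ℕ} (m : ℕ) (i : Fin (n + 1) → Fin l) (s : Fin (n + 1) → ℝ) (v : Tr l m) :
    (∑ a, s a • JJ m (i a)) v = (fun j => Complex.I *
        ((∑ a ∈ Finset.univ.filter (fun a => i a = j), s a : ℝ) : ℂ) * v.1 j, 0) := by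
  rw [sum_apply]
  simp only [smul_apply, rho_JJ]
  refine Prod.ext (funext fun j => ?_) ?_
  · simp only [Prod.fst_sum, Finset.sum_apply, Prod.smul_fst, Pi.smul_apply, Pi.single_apply,
      Complex.real_smul]
    rw [Finset.sum_filter, Complex.ofReal_sum, Finset.mul_sum, Finset.sum_mul]
    refine Finset.sum_congr rfl fun a _ => ?_
    by_cases h : i a = j
    · simp only [h, if_true]
      push_cast
      ring
    · simp [h, Ne.symm h]
  · simp only [Prod.snd_sum, Prod.smul_snd, smul_zero, Finset.sum_const_zero]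

theorem pRho : S_Rho := by
  intro l m n i
  refine ⟨rho_smooth m i, fun t s => ?_, fun t j => ?_, fun j j' => ?_⟩
  · refine ContinuousLinearMap.ext fun v => ?_
    rw [rho_deriv, mul_apply_eq_comp, rho_sum, rho_apply]
    refine Prod.ext (funext fun j => ?_) rfl
    simp only
    ring
  · refine ContinuousLinearMap.ext fun v => ?_
    rw [mul_apply_eq_comp, mul_apply_eq_comp, rho_JJ, rho_JJ, rho_apply, rho_apply]
    exact Prod.ext (funext fun k => mul_left_comm _ _ _) rfl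
  · refine ContinuousLinearMap.ext fun v => ?_
    rw [mul_apply_eq_comp, mul_apply_eq_comp, rho_JJ m j v, rho_JJ m j' v, rho_JJ, rho_JJ]
    exact Prod.ext (funext fun k => mul_left_comm _ _ _) rfl

end Pool.Agent.P.MP_878f14_gt
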