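import Pool.Agent.P.MP_878f14_gt.Def

/-!
The charts of one factor.
-/

open Filter Topology
open scoped ContDiff

namespace Pool.Agent.P.MP_878f14_gt

theorem sphA_pos {s : ℂ × ℝ} (hs : s ≠ 0) : 0 < Complex.normSq s.1 + s.2 ^ 2 := by
  by_contra h
  have h1 := Complex.normSq_nonneg s.1
  have h2 := sq_nonneg s.2
  exact hs (Prod.ext (Complex.normSq_eq_zero.1 (by linarith))
    (pow_eq_zero_iff two_ne_zero |>.1 (by linarith)))

theorem sphA_rpos {s : ℂ × ℝ} (hs : s ≠ 0) : 0 < rr s := Real.sqrt_pos.2 (sphA_pos hs)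

theorem sphA_sq (s : ℂ × ℝ) : rr s ^ 2 = Complex.normSq s.1 + s.2 ^ 2 :=
  Real.sq_sqrt (add_nonneg (Complex.normSq_nonneg _) (sq_nonneg _))

theorem sphA_rr {s : ℂ × ℝ} (hs : s ≠ 0) : ContDiffAt ℝ ∞ rr s := by
  refine ContDiffAt.sqrt (f := fun s : ℂ × ℝ => Complex.normSq s.1 + s.2 ^ 2) ?_ (sphA_pos hs).ne'
  simp only [Complex.normSq_apply]
  have h1 : ContDiff ℝ ∞ fun s : ℂ × ℝ => s.1.re := Complex.reCLM.contDiff.comp contDiff_fst
  have h2 : ContDiff ℝ ∞ fun s : ℂ × ℝ => s.1.im := Complex.imCLM.contDiff.comp contDiff_fst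
  exact (((h1.mul h1).add (h2.mul h2)).add (contDiff_snd.pow 2)).contDiffAt

theorem sphA_mu {s : ℂ × ℝ} (hs : s ≠ 0) : ContDiffAt ℝ ∞ mu s :=
  (contDiffAt_const.sub (contDiffAt_snd.div (sphA_rr hs) (sphA_rpos hs).ne')).div_const 2

theorem sphA_bd {s : ℂ × ℝ} (hs : s ≠ 0) : 0 ≤ mu s ∧ mu s ≤ 1 := by
  have h0 := sphA_rpos hs
  have h1 := abs_le_of_sq_le_sq' (a := s.2) (b := rr s)
    (by linarith [sphA_sq s, Complex.normSq_nonneg s.1]) h0.le
  have h2 : s.2 / rr s ≤ 1 := (div_le_one h0).2 h1.2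
  have h3 : -1 ≤ s.2 / rr s := by
    rw [le_div_iff₀ h0]
    linarith [h1.1]
  unfold mu
  constructor <;> linarith

theorem sphA_norm {s : ℂ × ℝ} (hs : s ≠ 0) :
    Complex.normSq s.1 = 4 * rr s ^ 2 * mu s * (1 - mu s) := by
  have h0 := (sphA_rpos hs).ne'
  have h1 : 4 * rr s ^ 2 * mu s * (1 - mu s) = rr s ^ 2 - s.2 ^ 2 := by
    unfold mu
    field_simp
    ring
  rw [h1, sphA_sq]
  ring

theorem sphA_open (c : Fin 4) : IsOpen (V c) := by
  refine isOpen_iff_mem_nhds.2 fun s hs => ?_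
  obtain ⟨h0, h1, h2, h3, h4⟩ := hs
  have hm := (sphA_mu h0).continuousAt
  have a1 : ∀ᶠ y in 𝓝 s, c = 0 → mu y < 1 / 3 :=
    eventually_imp_distrib_left.2 fun h => hm.eventually_lt continuousAt_const (h1 h)
  have a2 : ∀ᶠ y in 𝓝 s, c = 1 → 2 / 3 < mu y :=
    eventually_imp_distrib_left.2 fun h => continuousAt_const.eventually_lt hm (h2 h)
  have a3 : ∀ᶠ y : ℂ × ℝ in 𝓝 s, c = 2 → y.1 ∈ Complex.slitPlane :=
    eventually_imp_distrib_left.2 fun h =>
      continuousAt_fst.eventually_mem (Complex.isOpen_slitPlane.mem_nhds (h3 h))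
  have a4 : ∀ᶠ y : ℂ × ℝ in 𝓝 s, c = 3 → -y.1 ∈ Complex.slitPlane :=
    eventually_imp_distrib_left.2 fun h =>
      continuousAt_fst.neg.eventually_mem (Complex.isOpen_slitPlane.mem_nhds (h4 h))
  filter_upwards [isOpen_ne.mem_nhds h0, a1, a2, a3, a4] with y b0 b1 b2 b3 b4
  exact ⟨b0, b1, b2, b3, b4⟩

theorem sphA_cover {s : ℂ × ℝ} (hs : s ≠ 0) : ∃ c, s ∈ V c := by
  by_cases h : s.1 = 0
  · have h1 := sphA_norm hs
    have h2 := (sphA_rpos hs).ne'
    rw [h, map_zero, eq_comm, mul_eq_zero, mul_eq_zero] at h1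
    rcases h1 with (h1 | h1) | h1
    · exact absurd h1 (by positivity)
    · exact ⟨0, hs, fun _ => by linarith, by simp, by simp, by simp⟩
    · exact ⟨1, hs, by simp, fun _ => by linarith, by simp, by simp⟩
  · rcases Complex.mem_slitPlane_or_neg_mem_slitPlane h with h1 | h1
    · exact ⟨2, hs, by simp, by simp, fun _ => h1, by simp⟩
    · exact ⟨3, hs, by simp, by simp, by simp, fun _ => h1⟩

theorem sphA_arg {z : ℂ} (hz : z ∈ Complex.slitPlane) : ContDiffAt ℝ ∞ Complex.arg z := by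
  have h : Complex.arg = fun w => Complex.imCLM (Complex.log w) :=
    funext fun w => (Complex.log_im w).symm
  rw [h]
  exact Complex.imCLM.contDiff.contDiffAt.comp z ((Complex.contDiffAt_log hz).restrict_scalars ℝ)

theorem sphA_th (c : Fin 4) {s : ℂ × ℝ} (hs : s ∈ V c) : ContDiffAt ℝ ∞ (th c) s := by
  unfold th
  split_ifs with h2 h3
  · exact (sphA_arg (hs.2.2.2.1 h2)).comp s contDiffAt_fst
  · exact ((sphA_arg (hs.2.2.2.2 h3)).comp s contDiffAt_fst.neg).add contDiffAt_const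
  · exact contDiffAt_const

theorem sphA_mupos {c : Fin 4} {s : ℂ × ℝ} (hs : s ∈ V c) (hc : c ≠ 0) : 0 < mu s := by
  have h : s.1 ≠ 0 → 0 < mu s := fun h => by
    refine (sphA_bd hs.1).1.lt_of_ne fun h' => h (Complex.normSq_eq_zero.1 ?_)
    rw [sphA_norm hs.1, ← h']
    ring
  fin_cases c
  · exact absurd rfl hc
  · linarith [hs.2.2.1 rfl]
  · exact h (Complex.slitPlane_ne_zero (hs.2.2.2.1 rfl))
  · exact h (neg_ne_zero.1 (Complex.slitPlane_ne_zero (hs.2.2.2.2 rfl)))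

theorem sphA_zz (c : Fin 4) {s : ℂ × ℝ} (hs : s ∈ V c) :
    ContDiffAt ℝ ∞ (zz c) s ∧ Complex.normSq (zz c s) = mu s := by
  unfold zz
  split_ifs with h
  · have h1 : 0 < 1 - mu s := by linarith [hs.2.1 h]
    have h2 := sphA_rpos hs.1
    have h3 := Real.sqrt_pos.2 h1
    have h4 : ContDiffAt ℝ ∞ (fun y => 2 * rr y * √(1 - mu y)) s :=
      (contDiffAt_const.mul (sphA_rr hs.1)).mul
        ((contDiffAt_const.sub (sphA_mu hs.1)).sqrt h1.ne')
    constructor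
    · simp only [div_eq_mul_inv, ← Complex.ofReal_inv]
      exact contDiffAt_fst.mul
        (Complex.ofRealCLM.contDiff.contDiffAt.comp s (h4.inv (by positivity)))
    · rw [map_div₀, Complex.normSq_ofReal, sphA_norm hs.1, ← sq, mul_pow, mul_pow,
        Real.sq_sqrt h1.le]
      field_simp
      ring
  · have h1 := sphA_mupos hs h
    exact ⟨Complex.ofRealCLM.contDiff.contDiffAt.comp s ((sphA_mu hs.1).sqrt h1.ne'),
      by rw [Complex.normSq_ofReal, Real.mul_self_sqrt h1.le]⟩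

theorem pSphA : S_SphA :=
  ⟨sphA_open, fun _ => sphA_cover, fun _ hs => ⟨sphA_rpos hs, sphA_rr hs, sphA_mu hs,
    (sphA_bd hs).1, (sphA_bd hs).2, sphA_norm hs⟩, fun c _ hs => ⟨sphA_th c hs, sphA_zz c hs⟩⟩

end Pool.Agent.P.MP_878f14_gt
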