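import Pool.Agent.P.MP_878f14_gt.Def

/-!
Transition functions between the four charts of one factor.
-/

open Filter Topology
open scoped ContDiff

namespace Pool.Agent.P.MP_878f14_gt

theorem sphB_exp (c : Fin 4) (hc : c = 2 ∨ c = 3) (s : ℂ × ℝ) :
    Complex.exp (Complex.I * th c s) * (‖s.1‖ : ℂ) = s.1 := by
  rcases hc with rfl | rfl
  · have h := Complex.norm_mul_exp_arg_mul_I s.1
    simp only [th, if_true]
    rw [mul_comm, mul_comm Complex.I]; exact h
  · have h := Complex.norm_mul_exp_arg_mul_I (-s.1)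
    have e : th 3 s = Complex.arg (-s.1) + Real.pi := by simp [th]
    rw [e, Complex.ofReal_add, mul_add, Complex.exp_add, mul_comm Complex.I (Real.pi : ℂ),
      Complex.exp_pi_mul_I, mul_comm Complex.I]
    rw [norm_neg] at h
    linear_combination -h

theorem sphB_cap (hA : S_SphA) (c : Fin 4) (hc : c = 2 ∨ c = 3) (s : ℂ × ℝ) (hs : s ∈ V 0) :
    zz 0 s = Complex.exp (Complex.I * th c s) * zz c s := by
  obtain ⟨hr, -, -, h0, h1, hn⟩ := hA.2.2.1 s hs.1
  have hm : mu s < 1 / 3 := hs.2.1 rfl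
  have hq : 0 < √(1 - mu s) := Real.sqrt_pos.2 (by linarith)
  have hc0 : c ≠ 0 := by rcases hc with rfl | rfl <;> decide
  have hw : ‖s.1‖ = √(mu s) * (2 * rr s * √(1 - mu s)) := by
    rw [← Real.sqrt_sq (norm_nonneg s.1), Complex.sq_norm, hn, Real.sqrt_eq_iff_mul_self_eq
      (by have : 0 ≤ 1 - mu s := by linarith
          positivity) (by positivity)]
    have a1 := Real.mul_self_sqrt h0
    have a2 := Real.mul_self_sqrt (x := 1 - mu s) (by linarith)
    symm
    calc √(mu s) * (2 * rr s * √(1 - mu s)) * (√(mu s) * (2 * rr s * √(1 - mu s)))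
        = 4 * rr s ^ 2 * (√(mu s) * √(mu s)) * (√(1 - mu s) * √(1 - mu s)) := by ring
      _ = _ := by rw [a1, a2]
  have hne : ((2 * rr s * √(1 - mu s) : ℝ) : ℂ) ≠ 0 :=
    Complex.ofReal_ne_zero.2 (by positivity)
  have h := sphB_exp c hc s
  simp only [zz, if_true, if_neg hc0]
  rw [div_eq_iff hne, mul_assoc, ← Complex.ofReal_mul, ← hw, h]

theorem sphB_cap' (hA : S_SphA) (c : Fin 4) (hc : c = 2 ∨ c = 3) (s : ℂ × ℝ) (hs : s ∈ V 0) :
    zz c s = Complex.exp (Complex.I * ((-th c s : ℝ) : ℂ)) * zz 0 s := by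
  rw [sphB_cap hA c hc s hs, ← mul_assoc, ← Complex.exp_add]
  simp

theorem sphB_dl (s : ℂ × ℝ) (h2 : s ∈ V 2) (h3 : s ∈ V 3) :
    ∃ k : ℤ, ∀ᶠ s' in 𝓝 s, th 2 s' - th 3 s' = 2 * Real.pi * k := by
  have a2 : s.1 ∈ Complex.slitPlane := h2.2.2.2.1 rfl
  have a3 : -s.1 ∈ Complex.slitPlane := h3.2.2.2.2 rfl
  have e : ∀ s' : ℂ × ℝ, th 2 s' - th 3 s' = Complex.arg s'.1 - (Complex.arg (-s'.1) + Real.pi) :=
    fun s' => by simp [th]
  have hc : Continuous fun s' : ℂ × ℝ => s'.1.im := by fun_prop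
  have him : s.1.im ≠ 0 := by
    intro h
    simp only [Complex.mem_slitPlane_iff, Complex.neg_re, Complex.neg_im, h, ne_eq, neg_zero,
      not_true_eq_false, or_false] at a2 a3
    linarith
  rcases lt_or_gt_of_ne him with h | h
  · refine ⟨-1, (hc.continuousAt.eventually (gt_mem_nhds h)).mono fun s' hs' => ?_⟩
    rw [e, Complex.arg_neg_eq_arg_add_pi_of_im_neg hs']; push_cast; ring
  · refine ⟨0, (hc.continuousAt.eventually (lt_mem_nhds h)).mono fun s' hs' => ?_⟩
    rw [e, Complex.arg_neg_eq_arg_sub_pi_of_im_pos hs']; push_cast; ring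

theorem sphB_loc (c d : Fin 4) (s : ℂ × ℝ) (hc : s ∈ V c) (hd : s ∈ V d) :
    ∃ k : ℤ, ∀ᶠ s' in 𝓝 s, dl c d s' = 2 * Real.pi * k := by
  by_cases h : 2 ≤ c ∧ 2 ≤ d
  · have h1 : c = 2 ∨ c = 3 := by
      have := h.1; revert this; fin_cases c <;> simp
    have h2 : d = 2 ∨ d = 3 := by
      have := h.2; revert this; fin_cases d <;> simp
    simp only [dl, if_pos h]
    rcases h1 with rfl | rfl <;> rcases h2 with rfl | rfl
    · exact ⟨0, Eventually.of_forall fun s' => by simp⟩
    · exact sphB_dl s hc hd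
    · obtain ⟨k, hk⟩ := sphB_dl s hd hc
      exact ⟨-k, hk.mono fun s' hs' => by push_cast; linarith⟩
    · exact ⟨0, Eventually.of_forall fun s' => by simp⟩
  · exact ⟨0, Eventually.of_forall fun s' => by simp [dl, h]⟩

theorem pSphB (hA : S_SphA) : S_SphB := by
  rintro c d s ⟨hc, hd⟩
  obtain ⟨k, hk⟩ := sphB_loc c d s hc hd
  have hk0 := hk.self_of_nhds
  refine ⟨?_, ?_, hk.mono fun s' hs' => by rw [hs', hk0], k, hk0⟩
  · have h4 : ∀ e : Fin 4, e = 0 ∨ e = 1 ∨ e = 2 ∨ e = 3 := by decide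
    by_cases h0 : c = 0
    · subst h0
      simp only [ta, if_true]
      rcases h4 d with rfl | rfl | h
      · simp [th]
      · have a1 : mu s < 1 / 3 := hc.2.1 rfl
        have a2 : 2 / 3 < mu s := hd.2.2.1 rfl
        linarith
      · exact sphB_cap hA d h s hc
    · by_cases h1 : d = 0
      · subst h1
        simp only [ta, if_neg h0, if_true]
        rcases h4 c with rfl | rfl | h
        · exact absurd rfl h0
        · have a1 : mu s < 1 / 3 := hd.2.1 rfl
          have a2 : 2 / 3 < mu s := hc.2.2.1 rfl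
          linarith
        · exact sphB_cap' hA c h s hd
      · simp [ta, zz, h0, h1]
  · by_cases h0 : c = 0
    · have e : ta c d = th d := funext fun s' => by simp [ta, h0]
      rw [e]; exact (hA.2.2.2 d s hd).1
    · by_cases h1 : d = 0
      · have e : ta c d = fun s' => -th c s' := funext fun s' => by simp [ta, h0, h1]
        rw [e]; exact (hA.2.2.2 c s hc).1.neg
      · have e : ta c d = fun _ => 0 := funext fun s' => by simp [ta, h0, h1]
        rw [e]; exact contDiffAt_const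

end Pool.Agent.P.MP_878f14_gt
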