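import Pool.Agent.P.MP_878f14_gt.Def

open Filter Topology MeasureTheory
open scoped ContDiff

namespace Pool.Agent.P.MP_878f14_gt

theorem sphC_t {c : Fin 4} {s : ℂ × ℝ} (hs : s ∈ V c) {t : ℝ} (h1 : mu s ≤ 1 / 3 → t = 1)
    (h0 : 2 / 3 ≤ mu s → t = 0) (hc : ¬2 ≤ c) : (c = 0 ∧ t = 1) ∨ (c = 1 ∧ t = 0) := by
  obtain ⟨-, a0, a1, -, -⟩ := hs
  have : c = 0 ∨ c = 1 := by
    revert hc
    fin_cases c <;> simp
  rcases this with h | h
  · exact Or.inl ⟨h, h1 (a0 h).le⟩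
  · exact Or.inr ⟨h, h0 (a1 h).le⟩

theorem pSphC (hB : S_SphB) : S_SphC := by
  refine ⟨fun c s => by simp [dl], ?_, ?_⟩
  · intro c d s hs t h1 h0
    by_cases hc : 2 ≤ c
    · have hc0 : c ≠ 0 := by
        rintro rfl
        exact absurd hc (by decide)
      by_cases hd : 2 ≤ d
      · have hd0 : d ≠ 0 := by
          rintro rfl
          exact absurd hd (by decide)
        simp only [ta, dl, hc, hd, hc0, hd0, and_self, if_true, if_false]
        ring
      · rcases sphC_t hs.2 h1 h0 hd with ⟨rfl, rfl⟩ | ⟨rfl, rfl⟩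
        · simp [ta, dl, hc0, th]
        · simp [ta, hc0]
    · rcases sphC_t hs.1 h1 h0 hc with ⟨rfl, rfl⟩ | ⟨rfl, rfl⟩
      · simp [ta, dl, th]
      · simp [ta, th]
  · intro c d e s hs t h1 h0
    by_cases h : 2 ≤ c ∧ 2 ≤ d ∧ 2 ≤ e
    · refine ⟨0, ?_⟩
      simp only [dl, h.1, h.2.1, h.2.2, and_self, if_true]
      push_cast
      ring
    · have ht : t = 1 ∨ t = 0 := by
        by_cases hc : 2 ≤ c
        · by_cases hd : 2 ≤ d
          · have he : ¬2 ≤ e := fun he => h ⟨hc, hd, he⟩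
            rcases sphC_t hs.2 h1 h0 he with h' | h'
            exacts [Or.inl h'.2, Or.inr h'.2]
          · rcases sphC_t hs.1.2 h1 h0 hd with h' | h'
            exacts [Or.inl h'.2, Or.inr h'.2]
        · rcases sphC_t hs.1.1 h1 h0 hc with h' | h'
          exacts [Or.inl h'.2, Or.inr h'.2]
      rcases ht with rfl | rfl
      · obtain ⟨k1, e1⟩ := (hB c e s ⟨hs.1.1, hs.2⟩).2.2.2
        obtain ⟨k2, e2⟩ := (hB c d s hs.1).2.2.2
        obtain ⟨k3, e3⟩ := (hB d e s ⟨hs.1.2, hs.2⟩).2.2.2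
        refine ⟨k1 - k2 - k3, ?_⟩
        rw [e1, e2, e3]
        push_cast
        ring
      · exact ⟨0, by simp⟩

end Pool.Agent.P.MP_878f14_gt
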