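import Pool.Agent.P.MP_878f14_gt.Def

/-!
The local connection forms on one factor are smooth and differ by the transition angles.
-/

open Filter Topology
open scoped ContDiff

namespace Pool.Agent.P.MP_878f14_gt

theorem sphD_om_apply (s v : ℂ × ℝ) : om s v = (starRingEnd ℂ s.1 * v.1).im := rfl

theorem sphD_om_smooth : ContDiff ℝ ∞ om := by
  rw [contDiff_clm_apply_iff]
  intro v
  simp only [sphD_om_apply]
  exact Complex.imCLM.contDiff.comp
    ((Complex.conjCLE.contDiff.comp contDiff_fst).mul contDiff_const)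

theorem sphD_arg {w : ℂ} (hw : w ∈ Complex.slitPlane) :
    HasFDerivAt Complex.arg (Complex.imCLM.comp (ContinuousLinearMap.mul ℝ ℂ w⁻¹)) w := by
  have h := Complex.imCLM.hasFDerivAt.comp w (Complex.hasStrictFDerivAt_log_real hw).hasFDerivAt
  have e : (Complex.imCLM ∘ Complex.log) = Complex.arg := funext fun z => Complex.log_im z
  rw [e] at h
  refine h.congr_fderiv ?_
  ext <;> simp

theorem sphD_im (w v : ℂ) : (w⁻¹ * v).im = (1 / Complex.normSq w) * (starRingEnd ℂ w * v).im := by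
  rw [Complex.inv_def, mul_right_comm, Complex.im_mul_ofReal]; ring

theorem sphD_th2 {s : ℂ × ℝ} (h : s.1 ∈ Complex.slitPlane) :
    HasFDerivAt (th 2) ((1 / Complex.normSq s.1) • om s) s := by
  have e : th 2 = fun s : ℂ × ℝ => Complex.arg s.1 := by funext s; simp [th]
  rw [e]
  refine ((sphD_arg h).comp s hasFDerivAt_fst).congr_fderiv (ContinuousLinearMap.ext fun v => ?_)
  exact sphD_im s.1 v.1

theorem sphD_th3 {s : ℂ × ℝ} (h : -s.1 ∈ Complex.slitPlane) :
    HasFDerivAt (th 3) ((1 / Complex.normSq s.1) • om s) s := by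
  have e : th 3 = fun s : ℂ × ℝ => Complex.arg (-s.1) + Real.pi := by funext s; simp [th]
  rw [e]
  refine (((sphD_arg h).comp s hasFDerivAt_fst.neg).add_const _).congr_fderiv
    (ContinuousLinearMap.ext fun v => ?_)
  change ((-s.1)⁻¹ * -v.1).im = _
  rw [inv_neg, neg_mul_neg]
  exact sphD_im s.1 v.1

theorem sphD_ne {c : Fin 4} {s : ℂ × ℝ} (hs : s ∈ V c) (hc : c = 2 ∨ c = 3) : s.1 ≠ 0 := by
  rcases hc with hc | hc
  · exact Complex.slitPlane_ne_zero (hs.2.2.2.1 hc)
  · exact neg_ne_zero.1 (Complex.slitPlane_ne_zero (hs.2.2.2.2 hc))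

theorem sphD_th {c : Fin 4} {s : ℂ × ℝ} (hs : s ∈ V c) (hc : c = 2 ∨ c = 3) :
    HasFDerivAt (th c) ((1 / Complex.normSq s.1) • om s) s := by
  rcases hc with rfl | rfl
  · exact sphD_th2 (hs.2.2.2.1 rfl)
  · exact sphD_th3 (hs.2.2.2.2 rfl)

theorem sphD_cases (c : Fin 4) : c = 0 ∨ c = 1 ∨ (c ≠ 0 ∧ (c = 2 ∨ c = 3)) := by
  fin_cases c <;> simp

theorem pSphD (hA : S_SphA) : S_SphD := by
  have hp : ∀ s : ℂ × ℝ, s ≠ 0 → rr s + s.2 = 2 * rr s * (1 - mu s) ∧
      rr s - s.2 = 2 * rr s * mu s := fun s hs => by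
    have := (hA.2.2.1 s hs).1.ne'
    unfold mu
    constructor <;> field_simp <;> ring
  have h0 : ∀ s ∈ V 0, 0 < rr s + s.2 := fun s hs => by
    have h1 := hs.2.1 rfl
    rw [(hp s hs.1).1]
    exact mul_pos (mul_pos two_pos (hA.2.2.1 s hs.1).1) (by linarith)
  have h1 : ∀ c, c ≠ 0 → ∀ s ∈ V c, 0 < rr s - s.2 := fun c hc s hs => by
    obtain ⟨hr, -, -, m0, m1, hn⟩ := hA.2.2.1 s hs.1
    rw [(hp s hs.1).2]
    refine mul_pos (mul_pos two_pos hr) ?_
    rcases sphD_cases c with h | h | h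
    · exact absurd h hc
    · linarith [hs.2.2.1 h]
    · refine m0.lt_of_ne fun hm => sphD_ne hs h.2 (Complex.normSq_eq_zero.1 ?_)
      rw [hn, ← hm]; ring
  have key : ∀ d, d ≠ 0 → (d = 2 ∨ d = 3) → ∀ s ∈ V 0 ∩ V d,
      be d s = be 0 s + (1 / Complex.normSq s.1) • om s := fun d hd _ s hs => by
    obtain ⟨hr, -, -, -, -, hn⟩ := hA.2.2.1 s hs.1.1
    have e : Complex.normSq s.1 = (rr s + s.2) * (rr s - s.2) := by
      rw [(hp s hs.1.1).1, (hp s hs.1.1).2, hn]; ring
    have a1 := (h0 s hs.1).ne'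
    have a2 := (h1 d hd s hs.2).ne'
    simp only [be, if_neg hd, if_true]
    rw [← add_smul, e]
    congr 1
    field_simp
    ring
  refine ⟨fun c s hs => ?_, fun c d s hs => ?_⟩
  · obtain ⟨hr, hsm, -⟩ := hA.2.2.1 s hs.1
    by_cases hc : c = 0
    · subst hc
      have e : be 0 = fun s => (-(1 / (2 * rr s * (rr s + s.2)))) • om s := by
        funext s; simp only [be, if_true]
      rw [e]
      exact (contDiffAt_const.div ((contDiffAt_const.mul hsm).mul (hsm.add contDiffAt_snd))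
        (mul_pos (mul_pos two_pos hr) (h0 s hs)).ne').neg.smul sphD_om_smooth.contDiffAt
    · have e : be c = fun s => (1 / (2 * rr s * (rr s - s.2))) • om s := by
        funext s; simp only [be, if_neg hc]
      rw [e]
      exact (contDiffAt_const.div ((contDiffAt_const.mul hsm).mul (hsm.sub contDiffAt_snd))
        (mul_pos (mul_pos two_pos hr) (h1 c hc s hs)).ne').smul sphD_om_smooth.contDiffAt
  by_cases hc : c = 0
  · subst hc
    have e : ta 0 d = th d := by funext s; simp only [ta, if_true]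
    rw [e]
    rcases sphD_cases d with rfl | rfl | h
    · have e2 : th 0 = fun _ => 0 := by funext s; simp [th]
      rw [e2]; simp
    · linarith [hs.1.2.1 rfl, hs.2.2.2.1 rfl]
    · rw [(sphD_th hs.2 h.2).fderiv]
      exact key d h.1 h.2 s hs
  by_cases hd : d = 0
  · subst hd
    have e : ta c 0 = fun s => -th c s := by funext s; simp only [ta, if_neg hc, if_true]
    rw [e]
    rcases sphD_cases c with h | rfl | h
    · exact absurd h hc
    · linarith [hs.2.2.1 rfl, hs.1.2.2.1 rfl]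
    · rw [(sphD_th hs.1 h.2).fun_neg.fderiv, key c h.1 h.2 s ⟨hs.2, hs.1⟩, add_neg_cancel_right]
  · have e : ta c d = fun _ => 0 := by funext s; simp only [ta, if_neg hc, if_neg hd]
    rw [e]
    simp [be, hc, hd]

end Pool.Agent.P.MP_878f14_gt
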