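import Pool.Agent.P.MP_878f14_gt.Def

/-!
Package SphE: the exterior derivative of the connection forms.
-/

open Filter Topology
open scoped ContDiff

namespace Pool.Agent.P.MP_878f14_gt

theorem sphE_om (s w : ℂ × ℝ) : om s w = s.1.re * w.1.im - s.1.im * w.1.re := by
  simp [om]; ring

theorem sphE_sq (s : ℂ × ℝ) : rr s ^ 2 = s.1.re ^ 2 + s.1.im ^ 2 + s.2 ^ 2 := by
  unfold rr
  rw [Real.sq_sqrt (add_nonneg (Complex.normSq_nonneg _) (sq_nonneg _)), Complex.normSq_apply]
  ring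

theorem sphE_rr {s : ℂ × ℝ} (h : 0 < rr s) : ∃ L : ℂ × ℝ →L[ℝ] ℝ, HasFDerivAt rr L s ∧
    ∀ v, L v = (s.1.re * v.1.re + s.1.im * v.1.im + s.2 * v.2) / rr s := by
  have hX := (Complex.reCLM.comp (ContinuousLinearMap.fst ℝ ℂ ℝ)).hasFDerivAt (x := s)
  have hY := (Complex.imCLM.comp (ContinuousLinearMap.fst ℝ ℂ ℝ)).hasFDerivAt (x := s)
  have hZ := (ContinuousLinearMap.snd ℝ ℂ ℝ).hasFDerivAt (x := s)
  have hf := ((hX.mul hX).add (hY.mul hY)).add (hZ.mul hZ)
  have e : (fun s : ℂ × ℝ => Complex.normSq s.1 + s.2 ^ 2)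
      = (fun s : ℂ × ℝ => s.1.re * s.1.re + s.1.im * s.1.im + s.2 * s.2) := by
    funext s; rw [Complex.normSq_apply]; ring
  have hf0 : HasFDerivAt (fun s : ℂ × ℝ => s.1.re * s.1.re + s.1.im * s.1.im + s.2 * s.2) _ s := hf
  have hf' := e ▸ hf0
  have hne : Complex.normSq s.1 + s.2 ^ 2 ≠ 0 := by
    intro h0
    unfold rr at h
    rw [h0, Real.sqrt_zero] at h
    exact lt_irrefl _ h
  refine ⟨_, hf'.sqrt hne, fun v => ?_⟩
  have h' : √(Complex.normSq s.1 + s.2 ^ 2) = rr s := rfl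
  simp only [h', smul_apply, add_apply,
    ContinuousLinearMap.comp_apply, ContinuousLinearMap.coe_fst', ContinuousLinearMap.coe_snd',
    Complex.reCLM_apply, Complex.imCLM_apply, smul_eq_mul]
  field_simp
  ring

theorem sphE_gen {s : ℂ × ℝ} (h : 0 < rr s) {e : ℝ} (hp : 0 < rr s - e * s.2) (v w : ℂ × ℝ) :
    fderiv ℝ (fun s : ℂ × ℝ => e * (2 * rr s * (rr s - e * s.2))⁻¹
      * (s.1.re * w.1.im - s.1.im * w.1.re)) s v
    = e * (2 * rr s * (rr s - e * s.2))⁻¹ * (v.1.re * w.1.im - v.1.im * w.1.re)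
      - (s.1.re * w.1.im - s.1.im * w.1.re) * (e * ((2 * rr s * (rr s - e * s.2)) ^ 2)⁻¹ *
        (2 * rr s * ((s.1.re * v.1.re + s.1.im * v.1.im + s.2 * v.2) / rr s - e * v.2)
          + (rr s - e * s.2) * (2 * ((s.1.re * v.1.re + s.1.im * v.1.im + s.2 * v.2) / rr s)))) := by
  obtain ⟨L, hL, hLv⟩ := sphE_rr h
  have hX := (Complex.reCLM.comp (ContinuousLinearMap.fst ℝ ℂ ℝ)).hasFDerivAt (x := s)
  have hY := (Complex.imCLM.comp (ContinuousLinearMap.fst ℝ ℂ ℝ)).hasFDerivAt (x := s)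
  have hZ := (ContinuousLinearMap.snd ℝ ℂ ℝ).hasFDerivAt (x := s)
  have h1 := (hL.const_mul 2).mul (hL.sub (hZ.const_mul e))
  have hne : 2 * rr s * (rr s - e * s.2) ≠ 0 := by positivity
  have h2 := (hasDerivAt_inv hne).comp_hasFDerivAt s h1
  have h3 := (h2.const_mul e).mul ((hX.mul_const w.1.im).sub (hY.mul_const w.1.re))
  have h4 : HasFDerivAt (fun s : ℂ × ℝ => e * (2 * rr s * (rr s - e * s.2))⁻¹
      * (s.1.re * w.1.im - s.1.im * w.1.re)) _ s := h3
  rw [h4.fderiv]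
  simp only [smul_apply, add_apply,
    sub_apply, ContinuousLinearMap.comp_apply, ContinuousLinearMap.coe_fst',
    ContinuousLinearMap.coe_snd', Complex.reCLM_apply, Complex.imCLM_apply, smul_eq_mul, hLv,
    Function.comp_apply, Pi.mul_apply, Pi.sub_apply]
  ring

theorem sphE_alg {r X Y Z e a b c a' b' c' : ℝ} (h : 0 < r) (hp : 0 < r - e * Z) (he : e = 1 ∨ e = -1)
    (hr : r ^ 2 = X ^ 2 + Y ^ 2 + Z ^ 2) :
    (e * (2 * r * (r - e * Z))⁻¹ * (a * b' - b * a')
      - (X * b' - Y * a') * (e * ((2 * r * (r - e * Z)) ^ 2)⁻¹ *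
        (2 * r * ((X * a + Y * b + Z * c) / r - e * c)
          + (r - e * Z) * (2 * ((X * a + Y * b + Z * c) / r)))))
    - (e * (2 * r * (r - e * Z))⁻¹ * (a' * b - b' * a)
      - (X * b - Y * a) * (e * ((2 * r * (r - e * Z)) ^ 2)⁻¹ *
        (2 * r * ((X * a' + Y * b' + Z * c') / r - e * c')
          + (r - e * Z) * (2 * ((X * a' + Y * b' + Z * c') / r)))))
    = -(X * (b * c' - c * b') - Y * (a * c' - c * a') + Z * (a * b' - b * a')) / (2 * r ^ 3) := by
  have h1 := h.ne'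
  have h2 := hp.ne'
  have h3 : X ^ 2 + Y ^ 2 = r ^ 2 - Z ^ 2 := by linarith
  trans e * (a * b' - b * a') / (r * (r - e * Z)) - e / (4 * r ^ 2 * (r - e * Z) ^ 2) *
    (2 * (r + (r - e * Z)) / r * ((X ^ 2 + Y ^ 2) * (a * b' - b * a')
      - Z * (X * (b * c' - c * b') - Y * (a * c' - c * a')))
      + 2 * r * e * (X * (b * c' - c * b') - Y * (a * c' - c * a')))
  · field_simp
    ring
  · rw [h3]
    rcases he with rfl | rfl
    · have h4 : r - Z ≠ 0 := by simpa using h2
      simp only [one_mul]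
      field_simp
      ring
    · have h4 : r + Z ≠ 0 := by simpa using h2
      simp only [neg_mul, one_mul, sub_neg_eq_add]
      field_simp
      ring

theorem pSphE (hA : S_SphA) (hD : S_SphD) : S_SphE := by
  intro c s hs v w
  obtain ⟨h0, -, -, -, -, -⟩ := hA.2.2.1 s hs.1
  have hd : DifferentiableAt ℝ (be c) s := (hD.1 c s hs).differentiableAt (by simp)
  have hap : ∀ v w, fderiv ℝ (be c) s v w = fderiv ℝ (fun s => be c s w) s v := fun v w => by
    rw [fderiv_clm_apply hd (differentiableAt_const w)]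
    simp
  obtain ⟨e, he, hp, hb⟩ : ∃ e : ℝ, (e = 1 ∨ e = -1) ∧ 0 < rr s - e * s.2 ∧
      ∀ w, (fun s => be c s w) = fun s : ℂ × ℝ => e * (2 * rr s * (rr s - e * s.2))⁻¹
        * (s.1.re * w.1.im - s.1.im * w.1.re) := by
    have hq : s.2 = rr s * (1 - 2 * mu s) := by unfold mu; field_simp; ring
    by_cases hc : c = 0
    · refine ⟨-1, Or.inr rfl, ?_, fun w => ?_⟩
      · have := hs.2.1 hc
        nlinarith
      · funext s
        simp only [be, hc, if_true, smul_apply, smul_eq_mul, sphE_om]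
        ring
    · refine ⟨1, Or.inl rfl, ?_, fun w => ?_⟩
      · have hm : 0 < mu s := by
          obtain ⟨-, -, -, m0, m1, m2⟩ := hA.2.2.1 s hs.1
          have hw : s.1 ≠ 0 → 0 < mu s := fun hw => by
            rcases m0.eq_or_lt with h | h
            · rw [← h] at m2
              simp only [mul_zero, zero_mul] at m2
              exact absurd (Complex.normSq_eq_zero.1 m2) hw
            · exact h
          fin_cases c
          · exact absurd rfl hc
          · linarith [hs.2.2.1 rfl]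
          · exact hw (Complex.slitPlane_ne_zero (hs.2.2.2.1 rfl))
          · exact hw (neg_ne_zero.1 (Complex.slitPlane_ne_zero (hs.2.2.2.2 rfl)))
        nlinarith [mul_pos h0 hm]
      · funext s
        simp only [be, hc, if_false, smul_apply, smul_eq_mul, sphE_om]
        ring
  rw [hap, hap, hb, hb, sphE_gen h0 hp, sphE_gen h0 hp]
  exact sphE_alg h0 hp he (sphE_sq s)

end Pool.Agent.P.MP_878f14_gt
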