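import Pool.Agent.P.MP_878f14_gt.Def

/-!
Stokes on a box with matching opposite faces.
-/

open Filter Topology MeasureTheory

namespace Pool.Agent.P.MP_878f14_gt

theorem pStokes : S_Stokes := by
  intro k ζ lo hi hd hc hle hface
  set g : Fin (k + 1) → (Fin (k + 1) → ℝ) → ℝ :=
    fun s x => ζ x (fun t => Pi.single (s.succAbove t) 1) with hg
  have hgd : ∀ s, Differentiable ℝ (g s) := fun s => (hc s).differentiable one_ne_zero
  have key := integral_divergence_of_hasFDerivAt_off_countable' lo hi hle
    (fun s x => (-1 : ℝ) ^ s.val • g s x) (fun s x => (-1 : ℝ) ^ s.val • fderiv ℝ (g s) x) ∅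
    Set.countable_empty
    (fun s => ((hgd s).continuous.const_smul ((-1 : ℝ) ^ s.val)).continuousOn)
    (fun x _ s => (hgd s x).hasFDerivAt.const_smul ((-1 : ℝ) ^ s.val))
    (Continuous.integrableOn_Icc (continuous_finsetSum _ fun s _ =>
      ((((hc s).continuous_fderiv one_ne_zero).const_smul ((-1 : ℝ) ^ s.val)).clm_apply
        continuous_const)))
  have h1 : ∀ x, extDeriv ζ x (fun s => Pi.single s 1)
      = ∑ s : Fin (k + 1), ((-1 : ℝ) ^ s.val • fderiv ℝ (g s) x) (Pi.single s 1) := fun x => by
    rw [extDeriv_apply (hd x)]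
    refine Finset.sum_congr rfl fun s _ => ?_
    rw [smul_apply, smul_eq_mul, zsmul_eq_mul]
    push_cast
    rfl
  simp only [h1]
  rw [key]
  refine Finset.sum_eq_zero fun s _ => sub_eq_zero.2 ?_
  congr 1
  funext y
  have h2 := hface s (s.insertNth 0 y)
  rw [Fin.update_insertNth, Fin.update_insertNth] at h2
  simp only [hg, h2]

end Pool.Agent.P.MP_878f14_gt
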