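import Pool.Agent.P.MP_878f14_gt.Def

/-!
The invariant cut-off functions.
-/

open Filter Topology
open scoped ContDiff Manifold

namespace Pool.Agent.P.MP_878f14_gt

theorem ury_prod_lt {ι : Type} (s : Finset ι) (hs : s.Nonempty) (f g : ι → ℝ)
    (h0 : ∀ b ∈ s, 0 ≤ f b) (h : ∀ b ∈ s, f b < g b) : ∏ b ∈ s, f b < ∏ b ∈ s, g b := by
  by_cases hz : ∃ b ∈ s, f b = 0
  · obtain ⟨b, hb, hb0⟩ := hz
    rw [Finset.prod_eq_zero hb hb0]
    exact Finset.prod_pos fun c hc => lt_of_le_of_lt (h0 c hc) (h c hc)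
  · push Not at hz
    exact Finset.prod_lt_prod_of_nonempty (fun b hb => lt_of_le_of_ne (h0 b hb) (hz b hb).symm) h hs

section
variable {l m n : ℕ}

/-- The invariants of the torus action. -/
noncomputable def uryI (i : Fin (n + 1) → Fin l) (v : Tr l m) : Tr l m :=
  (fun j => if ∃ a, i a = j then v.1 j * (starRingEnd ℂ) (v.1 j) else v.1 j, v.2)

/-- The image of the cube in the space of invariants. -/
noncomputable def uryP (i : Fin (n + 1) → Fin l) (H : (Fin (n + 1) → ℝ) →L[ℝ] Tr l m)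
    (μ : Fin (n + 1) → ℝ) : Tr l m :=
  (fun j => if ∃ a, i a = j then
    ((∏ b ∈ Finset.univ.filter (fun b => i b = j), μ b : ℝ) : ℂ) else (H μ).1 j, (H μ).2)

theorem ury_smooth (i : Fin (n + 1) → Fin l) : ContDiff ℝ ∞ (uryI (m := m) i) := by
  refine ContDiff.prodMk (contDiff_pi.2 fun j => ?_) contDiff_snd
  have h : ContDiff ℝ ∞ (fun v : Tr l m => v.1 j) := (contDiff_apply ℝ ℂ j).comp contDiff_fst
  split_ifs
  · exact h.mul (Complex.conjCLE.contDiff.comp h)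
  · exact h

theorem ury_cont (i : Fin (n + 1) → Fin l) (H : (Fin (n + 1) → ℝ) →L[ℝ] Tr l m) :
    Continuous (uryP i H) := by
  refine Continuous.prodMk (continuous_pi fun j => ?_) (by fun_prop)
  split_ifs
  · fun_prop
  · fun_prop

theorem ury_inj (i : Fin (n + 1) → Fin l) (H : (Fin (n + 1) → ℝ) →L[ℝ] Tr l m)
    (h0 : ∀ μ a, (H μ).1 (i a) = 0) (hk : ∀ μ, H μ = 0 → ∀ a b, i a = i b → μ a = μ b)
    {μ ν : Fin (n + 1) → ℝ} (hμ : ∀ a, 0 ≤ μ a) (a : Fin (n + 1)) (hlt : μ a < ν a) :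
    uryP i H μ ≠ uryP i H ν := by
  intro h
  have h1 : ∀ j, (uryP i H μ).1 j = (uryP i H ν).1 j := fun j => by rw [h]
  have h2 : (H μ).2 = (H ν).2 := congrArg Prod.snd (a₁ := uryP i H μ) (a₂ := uryP i H ν) h
  have hH : H (ν - μ) = 0 := by
    rw [map_sub, sub_eq_zero]
    refine Prod.ext (funext fun j => ?_) h2.symm
    by_cases hj : ∃ a, i a = j
    · obtain ⟨b, rfl⟩ := hj
      rw [h0, h0]
    · have := h1 j
      simp only [uryP, if_neg hj] at this
      exact this.symm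
  have h3 := h1 (i a)
  simp only [uryP, if_pos (⟨a, rfl⟩ : ∃ b, i b = i a), Complex.ofReal_inj] at h3
  refine (ury_prod_lt _ ⟨a, by simp⟩ μ ν (fun b _ => hμ b) fun b hb => ?_).ne h3
  have := hk _ hH b a (Finset.mem_filter.1 hb).2
  simp only [Pi.sub_apply] at this
  linarith

theorem ury_on (i : Fin (n + 1) → Fin l) (H : (Fin (n + 1) → ℝ) →L[ℝ] Tr l m)
    {μ : Fin (n + 1) → ℝ} {v : Tr l m} (h : On i H μ v) : uryI i v = uryP i H μ := by
  refine Prod.ext (funext fun j => ?_) h.2.2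
  simp only [uryI, uryP]
  split_ifs with hj
  · obtain ⟨a, rfl⟩ := hj
    rw [Complex.mul_conj, h.1 a]
  · exact h.2.1 j fun a ha => hj ⟨a, ha⟩

end

theorem pUry : S_Ury := by
  intro l m n i H h0 hk
  have key : ∀ a : Fin (n + 1), ∃ χ : Tr l m → ℝ, ContDiff ℝ ∞ χ ∧
      ∀ μ : Fin (n + 1) → ℝ, (∀ b, 0 ≤ μ b ∧ μ b ≤ 1) →
        (μ a ≤ 1 / 3 → ∀ᶠ y in 𝓝 (uryP i H μ), χ y = 1) ∧
        (2 / 3 ≤ μ a → ∀ᶠ y in 𝓝 (uryP i H μ), χ y = 0) := by
    intro a
    have c0 : IsCompact (Set.Icc (0 : Fin (n + 1) → ℝ) 1 ∩ {μ | μ a ≤ 1 / 3}) :=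
      isCompact_Icc.inter_right (isClosed_le (continuous_apply a) continuous_const)
    have c1 : IsCompact (Set.Icc (0 : Fin (n + 1) → ℝ) 1 ∩ {μ | 2 / 3 ≤ μ a}) :=
      isCompact_Icc.inter_right (isClosed_le continuous_const (continuous_apply a))
    obtain ⟨f, hf0, hf1, -⟩ := exists_contMDiffMap_zero_one_nhds_of_isClosed (n := ⊤)
      𝓘(ℝ, Tr l m) (c1.image (ury_cont i H)).isClosed (c0.image (ury_cont i H)).isClosed
      (Set.disjoint_left.2 (by
        rintro _ ⟨ν, ⟨-, hν⟩, rfl⟩ ⟨μ, ⟨hμ0, hμ⟩, h⟩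
        simp only [Set.mem_setOf_eq] at hν hμ
        exact ury_inj i H h0 hk (fun b => hμ0.1 b) a (by linarith) h))
    refine ⟨f, f.contMDiff.contDiff, fun μ hμ => ⟨fun h => ?_, fun h => ?_⟩⟩
    · refine hf1.filter_mono (nhds_le_nhdsSet (Set.mem_image_of_mem _ ?_))
      exact ⟨⟨fun b => (hμ b).1, fun b => (hμ b).2⟩, h⟩
    · refine hf0.filter_mono (nhds_le_nhdsSet (Set.mem_image_of_mem _ ?_))
      exact ⟨⟨fun b => (hμ b).1, fun b => (hμ b).2⟩, h⟩
  choose χ hχ hloc using key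
  refine ⟨⟨i, H, fun a v => χ a (uryI i v), h0, fun a => (hχ a).comp (ury_smooth i), ?_, ?_⟩, rfl⟩
  · intro a v c hc hc1
    congr 1
    refine Prod.ext (funext fun j => ?_) rfl
    simp only [uryI]
    split_ifs with hj
    · rw [Complex.mul_conj, Complex.mul_conj, Complex.normSq_mul, Complex.normSq_eq_norm_sq (c j),
        hc j]
      simp
    · rw [hc1 j fun b hb => hj ⟨b, hb⟩, one_mul]
  · intro μ hμ v hv a
    have hc : Tendsto (uryI i) (𝓝 v) (𝓝 (uryP i H μ)) := by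
      rw [← ury_on i H hv]
      exact (ury_smooth i).continuous.continuousAt
    exact ⟨fun h => hc.eventually ((hloc a μ hμ).1 h), fun h => hc.eventually ((hloc a μ hμ).2 h)⟩

end Pool.Agent.P.MP_878f14_gt
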