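import Pool.Agent.P.MP_878f14_gt.Def

/-!
The charts of the base and the local lifts.
-/

open Filter Topology MeasureTheory
open scoped ContDiff

namespace Pool.Agent.P.MP_878f14_gt

lemma y_fst {l m n : ℕ} (D : Data l m n) (α : Fin (n + 1) → Fin 4) (p : Fin (n + 1) → ℂ × ℝ)
    (j : Fin l) : (yy D α p).1 j = if ∃ a, D.i a = j then
      ∏ a ∈ Finset.univ.filter (fun a => D.i a = j), zz (α a) (p a)
      else (D.H fun a => mu (p a)).1 j := by
  simp only [yy, Prod.fst_add, Pi.add_apply]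
  split_ifs with h
  · obtain ⟨a, rfl⟩ := h
    rw [D.h0, add_zero]
  · rw [zero_add]

lemma y_snd {l m n : ℕ} (D : Data l m n) (α : Fin (n + 1) → Fin 4) (p : Fin (n + 1) → ℂ × ℝ) :
    (yy D α p).2 = (D.H fun a => mu (p a)).2 := by
  simp only [yy, Prod.snd_add, zero_add]

lemma y_comp {n : ℕ} {F : Type} [NormedAddCommGroup F] [NormedSpace ℝ F] {f : ℂ × ℝ → F}
    (p : Fin (n + 1) → ℂ × ℝ) (a : Fin (n + 1)) (h : ContDiffAt ℝ ∞ f (p a)) :
    ContDiffAt ℝ ∞ (fun q : Fin (n + 1) → ℂ × ℝ => f (q a)) p :=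
  h.comp p (contDiffAt_apply ℝ (ℂ × ℝ) a p)

theorem pY (hA : S_SphA) (hB : S_SphB) : S_Y := by
  intro l m n D
  obtain ⟨hA1, hA2, hA3, hA4⟩ := hA
  refine ⟨fun α => ?_, ?_, fun α p hp => ⟨?_, ?_, ⟨fun a => ?_, fun j hj => ?_, y_snd D α p⟩,
    fun a => ?_⟩, fun α β p hp => ⟨?_, ?_, ?_⟩⟩
  · have : WW α = ⋂ a, (fun p : Fin (n + 1) → ℂ × ℝ => p a) ⁻¹' V (α a) := by
      ext p; simp [WW]
    rw [this]
    exact isOpen_iInter_of_finite fun a => (hA1 _).preimage (continuous_apply a)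
  · ext p
    simp only [Set.mem_iUnion]
    constructor
    · rintro ⟨α, hα⟩ a
      exact (hα a).1
    · intro hp
      choose α hα using fun a => hA2 (p a) (hp a)
      exact ⟨α, hα⟩
  · refine ContDiffAt.add (ContDiffAt.prodMk (contDiffAt_pi.2 fun j => ?_) contDiffAt_const)
      (D.H.contDiff.contDiffAt.comp p
        (contDiffAt_pi.2 fun a => y_comp p a (hA3 _ (hp a).1).2.2.1))
    split_ifs
    · exact contDiffAt_prod fun a _ => y_comp p a (hA4 _ _ (hp a)).2.1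
    · exact contDiffAt_const
  · exact contDiffAt_pi.2 fun a => y_comp p a (hA4 _ _ (hp a)).1
  · rw [y_fst, if_pos ⟨a, rfl⟩, map_prod]
    exact Finset.prod_congr rfl fun b _ => (hA4 _ _ (hp b)).2.2
  · rw [y_fst, if_neg (by rintro ⟨a, ha⟩; exact hj a ha)]
  · exact ⟨(hA3 _ (hp a).1).2.2.2.1, (hA3 _ (hp a).1).2.2.2.2.1⟩
  · have e : rho m D.i (TA α β p) (yy D β p) = (fun j => Complex.exp (Complex.I *
        ((∑ a ∈ Finset.univ.filter (fun a => D.i a = j), TA α β p a : ℝ) : ℂ)) * (yy D β p).1 j,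
        (yy D β p).2) := rfl
    rw [e]
    refine Prod.ext (funext fun j => ?_) (by simp only [y_snd])
    simp only [y_fst]
    split_ifs with h
    · rw [Complex.ofReal_sum, Finset.mul_sum, Complex.exp_sum, ← Finset.prod_mul_distrib]
      exact Finset.prod_congr rfl fun a _ => (hB _ _ _ ⟨hp.1 a, hp.2 a⟩).1
    · rw [Finset.filter_eq_empty_iff.2 fun a _ ha => h ⟨a, ha⟩]
      simp
  · exact contDiffAt_pi.2 fun a => y_comp p a (hB _ _ _ ⟨hp.1 a, hp.2 a⟩).2.1
  · have : ∀ a, ∀ᶠ p' in 𝓝 p, dl (α a) (β a) (p' a) = dl (α a) (β a) (p a) := fun a =>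
      (continuous_apply a).continuousAt.eventually (hB _ _ _ ⟨hp.1 a, hp.2 a⟩).2.2.1
    filter_upwards [Filter.eventually_all.2 this] with p' hp'
    exact funext hp'

end Pool.Agent.P.MP_878f14_gt
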