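import Pool.Agent.P.MP_878f14_gt.Def

/-!
The final assembly from the packages.
-/

open Filter Topology MeasureTheory
open scoped ContDiff

namespace Pool.Agent.P.MP_878f14_gt

def S_Main : Prop :=
  ∀ (l m n : ℕ) (P : MultilinearMap ℝ (fun _ : Fin (n + 1) => Tr l m →L[ℝ] Tr l m) ℝ),
    (∀ (σ : Equiv.Perm (Fin (n + 1))) (X : Fin (n + 1) → Tr l m →L[ℝ] Tr l m),
      P (fun t => X (σ t)) = P X) →
    (∀ (g : (Tr l m →L[ℝ] Tr l m)ˣ) (X : Fin (n + 1) → Tr l m →L[ℝ] Tr l m),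
      P (fun t => g.val * X t * g.inv) = P X) →
    ∀ x : Fin l → ℝ, P (fun _ => rot m x) ≠ 0 →
    n + 1 + min (Finset.univ.filter fun j => x j ≠ 0).card ((n + 1) / 2) ≤ 2 * l + m →
    ∃ (ι : Type) (H : Haefliger (Base n) (Tr l m) ι)
      (A : ι → (Fin (n + 1) → ℂ × ℝ) → (Fin (n + 1) → ℂ × ℝ) →L[ℝ] Tr l m →L[ℝ] Tr l m)
      (Θ : (Fin (n + 1) → ℂ × ℝ) → (Fin (2 * n + 2) → Fin (n + 1) → ℂ × ℝ) → ℝ),
      H.IsConn A ∧ (∀ a, ∀ p ∈ H.W a, ∀ v, Θ p v = cw P (curv (A a) p) v) ∧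
      ¬∃ η : (Fin (n + 1) → ℂ × ℝ) → (Fin (n + 1) → ℂ × ℝ) [⋀^Fin (2 * n + 1)]→L[ℝ] ℝ,
        ContDiffOn ℝ ∞ η (Base n) ∧ ∀ p ∈ Base n, ∀ v, extDeriv η p v = Θ p v

theorem pMain (hIdx : S_Idx) (hH : S_H) (hUry : S_Ury) (hY : S_Y) (hHae : S_Hae)
    (hK : S_K) (hGA : S_GaugeA) (hGB : S_GaugeB) (hB : S_B) (hCW : S_CW) (hF : S_F) (hM : S_M)
    (hPull : S_Pull) (hInt : S_Int) : S_Main := by
  intro l m n P hsym hinv x hx hq
  obtain ⟨i, hi, hc⟩ := hIdx l m n P hinv x hx hq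
  obtain ⟨H, h0, hker⟩ := hH l m n i hc
  obtain ⟨D, rfl⟩ := hUry l m n i H h0 hker
  obtain ⟨Hf, hW, hf, hγ⟩ := hHae l m n D
  obtain ⟨hop, -, -, -⟩ := hY l m n D
  obtain ⟨hk1, hk2⟩ := hK l m n D
  obtain ⟨hB1, hB2⟩ := hB l m n D.i
  have hnear : ∀ α, ∀ p ∈ (WW α : Set (Fin (n + 1) → ℂ × ℝ)), ∀ᶠ y in 𝓝 p,
      kk D α y * kinv D α y = 1 ∧ kinv D α y * kk D α y = 1 := fun α p hp => by
    filter_upwards [(hop α).mem_nhds hp] with y hy using (hk1 α y hy).2.2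
  have hGA' := fun α p (hp : p ∈ (WW α : Set (Fin (n + 1) → ℂ × ℝ))) =>
    hGA _ _ (kk D α) (kinv D α) (BB m D.i α) p (hk1 α p hp).1 (hk1 α p hp).2.1 (hB1 α p hp).1
      (hnear α p hp)
  let Ω : (Fin (n + 1) → ℂ × ℝ) → (Fin (n + 1) → ℂ × ℝ) → (Fin (n + 1) → ℂ × ℝ) →
      Tr l m →L[ℝ] Tr l m :=
    fun p v w => ∑ a, (-det3 (p a) (v a) (w a) / (2 * rr (p a) ^ 3)) • JJ m (D.i a)
  refine ⟨_, Hf, fun α => gauge (kk D α) (kinv D α) (BB m D.i α), fun p v => cw P (Ω p) v,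
    ⟨?_, ?_⟩, ?_, ?_⟩
  · intro α p hp
    rw [hW] at hp
    exact (hGA' α p hp).1.contDiffWithinAt
  · intro α β p hp
    rw [hW] at hp
    have hne : (∞ : WithTop ℕ∞) ≠ 0 := by simp
    refine hGB _ _ (kk D α) (kinv D α) (kk D β) (kinv D β) (fun y => rho m D.i (TA α β y))
      (Hf.g α β) (BB m D.i α) (BB m D.i β) p ((hk1 α p hp.1).1.differentiableAt hne)
      ((hk1 β p hp.2).1.differentiableAt hne) ((hk1 β p hp.2).2.1.differentiableAt hne)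
      (hB2 α β p hp).1 (hk1 α p hp.1).2.2.2 (hnear β p hp.2) ?_ (hB2 α β p hp).2
    filter_upwards [((hop α).inter (hop β)).mem_nhds hp] with y hy
    rw [Haefliger.g, hγ, hf]
    exact hk2 α β y hy
  · intro α p hp v
    rw [hW] at hp
    unfold cw
    refine Finset.sum_congr rfl fun σ _ => ?_
    congr 1
    let g : (Tr l m →L[ℝ] Tr l m)ˣ :=
      ⟨kk D α p, kinv D α p, (hk1 α p hp).2.2.1, (hk1 α p hp).2.2.2⟩
    rw [← hinv g]
    congr 1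
    funext t
    rw [(hGA' α p hp).2, (hB1 α p hp).2]
  · rintro ⟨η, hη, hd⟩
    obtain ⟨N, hN, hcw⟩ := hCW n
    obtain ⟨-, hFb, -, -⟩ := hF n
    have h1 := hPull n η hη
    have h2 : ∀ x, extDeriv η (FF n x) (dF n x) =
        (N * (-1 / 2) ^ (n + 1) * P fun t => JJ m (D.i t)) *
          ∏ a : Fin (n + 1), Real.sin (x (ev a)) := fun x => by
      rw [hd _ (hFb x)]
      obtain ⟨m1, m2⟩ := hM n _ (fun a => JJ m (D.i a)) x
        (fun s s' => Ω (FF n x) (dF n x s) (dF n x s')) (fun s s' => rfl)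
      have h3 := hcw _ P hsym (fun a => -Real.sin (x (ev a)) / 2) (fun a => JJ m (D.i a)) _ m1 m2
      have h4 : ∏ a : Fin (n + 1), -Real.sin (x (ev a)) / 2 =
          (-1 / 2) ^ (n + 1) * ∏ a : Fin (n + 1), Real.sin (x (ev a)) := by
        have : ∀ a : Fin (n + 1), -Real.sin (x (ev a)) / 2 = (-1 / 2) * Real.sin (x (ev a)) :=
          fun a => by ring
        simp only [this, Finset.prod_mul_distrib, Finset.prod_const, Finset.card_univ,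
          Fintype.card_fin]
      beta_reduce
      unfold cw
      rw [h3, h4]
      ring
    simp only [h2, integral_const_mul] at h1
    refine mul_ne_zero (mul_ne_zero (mul_ne_zero hN (pow_ne_zero _ ?_)) hi) (hInt n) h1
    norm_num

end Pool.Agent.P.MP_878f14_gt
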