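import Pool.Agent.P.MP_878f14_gt.Stm
import Pool.Agent.P.MP_878f14_gt.Glue

open Filter Topology
open scoped ContDiff

namespace Pool.Agent.P.MP_878f14_gt

/-- The multilinear map behind an invariant polynomial. -/
noncomputable def toML {𝔸 : Type} [NormedRing 𝔸] [NormedAlgebra ℝ 𝔸] {N : ℕ}
    (P : (Fin N → 𝔸) → ℝ) (hP : IsInvPoly P) : MultilinearMap ℝ (fun _ : Fin N => 𝔸) ℝ where
  toFun := P
  map_update_add' := fun {d} X t a b => by
    have : d = instDecidableEqFin N := Subsingleton.elim _ _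
    subst this
    simpa using hP.1 X t a b 1
  map_update_smul' := fun {d} X t c a => by
    have : d = instDecidableEqFin N := Subsingleton.elim _ _
    subst this
    have h0 : P (Function.update X t 0) = 0 := by
      have := hP.1 X t 0 0 1
      simp only [smul_zero, add_zero, one_mul] at this
      linarith
    simpa [h0] using hP.1 X t 0 a c

theorem bridge_curv {E 𝔸 : Type} [NormedAddCommGroup E] [NormedSpace ℝ E] [NormedRing 𝔸]
    [NormedAlgebra ℝ 𝔸] (A : E → E →L[ℝ] 𝔸) (p : E) (h : DifferentiableAt ℝ A p) :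
    curvature (fun y v => A y v) p = curv A p := by
  have h1 : ∀ v w, dd (fun y => A y w) p v = fderiv ℝ A p v w := fun v w => by
    unfold dd
    rw [fderiv_clm_apply h (differentiableAt_const w)]
    simp
  funext v w
  unfold curvature curv
  rw [h1, h1]

theorem bridge (hM : S_Main) (l m n : ℕ) (P : (Fin (n + 1) → Tr l m →L[ℝ] Tr l m) → ℝ)
    (hP : IsInvPoly P) (x : Fin l → ℝ) (X : Tr l m →L[ℝ] Tr l m) (hX : IsRot x X)
    (hx : P (fun _ => X) ≠ 0)
    (hq : n + 1 + min (Finset.univ.filter fun j => x j ≠ 0).card ((n + 1) / 2) ≤ 2 * l + m) :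
    NonzeroClass (Base n) P := by
  have e : X = rot m x := ContinuousLinearMap.ext hX
  subst e
  obtain ⟨ι, H, A, Θ, hA, hΘ, hne⟩ := hM l m n (toML P hP) hP.2.1
    (fun g X => hP.2.2 g.val g.inv g.val_inv g.inv_val X) x hx hq
  refine ⟨ι, H, fun a p v => A a p v, Θ, ⟨fun a p => (A a p).isLinear, fun a v => ?_, hA.2⟩,
    fun a p hp v => ?_, hne⟩
  · exact (hA.1 a).clm_apply contDiffOn_const
  · rw [hΘ a p hp v, bridge_curv (A a) p
      (((hA.1 a).contDiffAt ((H.isOpen a).mem_nhds hp)).differentiableAt (by simp))]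
    rfl

end Pool.Agent.P.MP_878f14_gt
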