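import Pool.Agent.P.MP_878f14_gt.St

/-!
Internal definitions and the statements of the packages.
-/

open Filter Topology MeasureTheory
open scoped ContDiff

namespace Pool.Agent.P.MP_878f14_gt

/-! One factor `ℝ^3 ∖ 0`, a point is `s = (w, Z)`. Charts: 0 north cap, 1 south cap,
2 and 3 the two slit regions. -/

noncomputable def rr (s : ℂ × ℝ) : ℝ := √(Complex.normSq s.1 + s.2 ^ 2)

noncomputable def mu (s : ℂ × ℝ) : ℝ := (1 - s.2 / rr s) / 2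

def V (c : Fin 4) : Set (ℂ × ℝ) :=
  {s | s ≠ 0 ∧ (c = 0 → mu s < 1 / 3) ∧ (c = 1 → 2 / 3 < mu s) ∧
    (c = 2 → s.1 ∈ Complex.slitPlane) ∧ (c = 3 → -s.1 ∈ Complex.slitPlane)}

noncomputable def th (c : Fin 4) (s : ℂ × ℝ) : ℝ :=
  if c = 2 then Complex.arg s.1 else if c = 3 then Complex.arg (-s.1) + Real.pi else 0

noncomputable def zz (c : Fin 4) (s : ℂ × ℝ) : ℂ :=
  if c = 0 then s.1 / ((2 * rr s * √(1 - mu s) : ℝ) : ℂ) else ((√(mu s) : ℝ) : ℂ)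

noncomputable def dl (c d : Fin 4) (s : ℂ × ℝ) : ℝ :=
  if 2 ≤ c ∧ 2 ≤ d then th c s - th d s else 0

noncomputable def ta (c d : Fin 4) (s : ℂ × ℝ) : ℝ :=
  if c = 0 then th d s else if d = 0 then -th c s else 0

/-- `om s v = Im (conj w * v.1) = X dY - Y dX`. -/
noncomputable def om (s : ℂ × ℝ) : ℂ × ℝ →L[ℝ] ℝ :=
  Complex.imCLM.comp ((ContinuousLinearMap.mul ℝ ℂ (starRingEnd ℂ s.1)).comp
    (ContinuousLinearMap.fst ℝ ℂ ℝ))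

noncomputable def be (c : Fin 4) (s : ℂ × ℝ) : ℂ × ℝ →L[ℝ] ℝ :=
  if c = 0 then (-(1 / (2 * rr s * (rr s + s.2)))) • om s
  else (1 / (2 * rr s * (rr s - s.2))) • om s

def det3 (s v w : ℂ × ℝ) : ℝ :=
  s.1.re * (v.1.im * w.2 - v.2 * w.1.im) - s.1.im * (v.1.re * w.2 - v.2 * w.1.re) +
    s.2 * (v.1.re * w.1.im - v.1.im * w.1.re)

def S_SphA : Prop :=
  (∀ c, IsOpen (V c)) ∧ (∀ s : ℂ × ℝ, s ≠ 0 → ∃ c, s ∈ V c) ∧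
  (∀ s : ℂ × ℝ, s ≠ 0 → 0 < rr s ∧ ContDiffAt ℝ ∞ rr s ∧ ContDiffAt ℝ ∞ mu s ∧
    0 ≤ mu s ∧ mu s ≤ 1 ∧ Complex.normSq s.1 = 4 * rr s ^ 2 * mu s * (1 - mu s)) ∧
  (∀ c, ∀ s ∈ V c, ContDiffAt ℝ ∞ (th c) s ∧ ContDiffAt ℝ ∞ (zz c) s ∧
    Complex.normSq (zz c s) = mu s)

def S_SphB : Prop :=
  ∀ c d, ∀ s ∈ V c ∩ V d,
    zz c s = Complex.exp (Complex.I * ta c d s) * zz d s ∧ ContDiffAt ℝ ∞ (ta c d) s ∧
    (∀ᶠ s' in 𝓝 s, dl c d s' = dl c d s) ∧ ∃ k : ℤ, dl c d s = 2 * Real.pi * k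

def S_SphC : Prop :=
  (∀ c s, dl c c s = 0) ∧
  (∀ c d, ∀ s ∈ V c ∩ V d, ∀ t : ℝ, (mu s ≤ 1 / 3 → t = 1) → (2 / 3 ≤ mu s → t = 0) →
    t * th c s + ta c d s = t * (dl c d s + th d s)) ∧
  (∀ c d e, ∀ s ∈ V c ∩ V d ∩ V e, ∀ t : ℝ, (mu s ≤ 1 / 3 → t = 1) → (2 / 3 ≤ mu s → t = 0) →
    ∃ k : ℤ, t * dl c e s = t * (dl c d s + dl d e s) + 2 * Real.pi * k)

def S_SphD : Prop :=
  (∀ c, ∀ s ∈ V c, ContDiffAt ℝ ∞ (be c) s) ∧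
  ∀ c d, ∀ s ∈ V c ∩ V d, be d s = be c s + fderiv ℝ (ta c d) s

def S_SphE : Prop :=
  ∀ c, ∀ s ∈ V c, ∀ v w,
    fderiv ℝ (be c) s v w - fderiv ℝ (be c) s w v = -det3 s v w / (2 * rr s ^ 3)

/-! Linear algebra and the cut-off functions. -/

noncomputable def JJ {l : ℕ} (m : ℕ) (j : Fin l) : Tr l m →L[ℝ] Tr l m := rot m (Pi.single j 1)

def S_Idx : Prop :=
  ∀ (l m n : ℕ) (P : MultilinearMap ℝ (fun _ : Fin (n + 1) => Tr l m →L[ℝ] Tr l m) ℝ),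
    (∀ (g : (Tr l m →L[ℝ] Tr l m)ˣ) (X : Fin (n + 1) → Tr l m →L[ℝ] Tr l m),
      P (fun t => g.val * X t * g.inv) = P X) →
    ∀ x : Fin l → ℝ, P (fun _ => rot m x) ≠ 0 →
    n + 1 + min (Finset.univ.filter fun j => x j ≠ 0).card ((n + 1) / 2) ≤ 2 * l + m →
    ∃ i : Fin (n + 1) → Fin l, P (fun t => JJ m (i t)) ≠ 0 ∧
      n + 1 + (Finset.univ.image i).card ≤ 2 * l + m

def S_H : Prop :=
  ∀ (l m n : ℕ) (i : Fin (n + 1) → Fin l), n + 1 + (Finset.univ.image i).card ≤ 2 * l + m →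
    ∃ H : (Fin (n + 1) → ℝ) →L[ℝ] Tr l m, (∀ μ a, (H μ).1 (i a) = 0) ∧
      ∀ μ, H μ = 0 → ∀ a b, i a = i b → μ a = μ b

/-- `v` lies over the point `μ` of the cube. -/
def On {l m n : ℕ} (i : Fin (n + 1) → Fin l) (H : (Fin (n + 1) → ℝ) →L[ℝ] Tr l m)
    (μ : Fin (n + 1) → ℝ) (v : Tr l m) : Prop :=
  (∀ a, Complex.normSq (v.1 (i a)) = ∏ b ∈ Finset.univ.filter (fun b => i b = i a), μ b) ∧
  (∀ j, (∀ a, i a ≠ j) → v.1 j = (H μ).1 j) ∧ v.2 = (H μ).2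

structure Data (l m n : ℕ) where
  i : Fin (n + 1) → Fin l
  H : (Fin (n + 1) → ℝ) →L[ℝ] Tr l m
  u : Fin (n + 1) → Tr l m → ℝ
  h0 : ∀ μ a, (H μ).1 (i a) = 0
  sm : ∀ a, ContDiff ℝ ∞ (u a)
  inv : ∀ a (v : Tr l m) (c : Fin l → ℂ), (∀ j, ‖c j‖ = 1) → (∀ j, (∀ b, i b ≠ j) → c j = 1) →
    u a (fun j => c j * v.1 j, v.2) = u a v
  loc : ∀ μ : Fin (n + 1) → ℝ, (∀ a, 0 ≤ μ a ∧ μ a ≤ 1) → ∀ v, On i H μ v → ∀ a,
    (μ a ≤ 1 / 3 → ∀ᶠ y in 𝓝 v, u a y = 1) ∧ (2 / 3 ≤ μ a → ∀ᶠ y in 𝓝 v, u a y = 0)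

def S_Ury : Prop :=
  ∀ (l m n : ℕ) (i : Fin (n + 1) → Fin l) (H : (Fin (n + 1) → ℝ) →L[ℝ] Tr l m),
    (∀ μ a, (H μ).1 (i a) = 0) → (∀ μ, H μ = 0 → ∀ a b, i a = i b → μ a = μ b) →
    ∃ D : Data l m n, D.i = i

section

variable {l m n : ℕ}

/-- The commuting flows with speeds `u a`. -/
noncomputable def R (D : Data l m n) (θ : Fin (n + 1) → ℝ) (v : Tr l m) : Tr l m :=
  (fun j => Complex.exp (Complex.I *
      ((∑ a ∈ Finset.univ.filter (fun a => D.i a = j), D.u a v * θ a : ℝ) : ℂ)) * v.1 j, v.2)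

/-- The linear rotation. -/
noncomputable def rho (m : ℕ) (i : Fin (n + 1) → Fin l) (t : Fin (n + 1) → ℝ) :
    Tr l m →L[ℝ] Tr l m :=
  LinearMap.toContinuousLinearMap
    { toFun := fun v => (fun j => Complex.exp (Complex.I *
        ((∑ a ∈ Finset.univ.filter (fun a => i a = j), t a : ℝ) : ℂ)) * v.1 j, v.2)
      map_add' := fun v w => by ext j <;> simp [mul_add]
      map_smul' := fun c v => by ext j <;> simp [mul_left_comm] }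

def WW (α : Fin (n + 1) → Fin 4) : Set (Fin (n + 1) → ℂ × ℝ) := {p | ∀ a, p a ∈ V (α a)}

noncomputable def yy (D : Data l m n) (α : Fin (n + 1) → Fin 4) (p : Fin (n + 1) → ℂ × ℝ) :
    Tr l m :=
  (fun j => if ∃ a, D.i a = j then
      ∏ a ∈ Finset.univ.filter (fun a => D.i a = j), zz (α a) (p a) else 0, 0) +
    D.H fun a => mu (p a)

noncomputable def TH (α : Fin (n + 1) → Fin 4) (p : Fin (n + 1) → ℂ × ℝ) : Fin (n + 1) → ℝ :=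
  fun a => th (α a) (p a)

noncomputable def DL (α β : Fin (n + 1) → Fin 4) (p : Fin (n + 1) → ℂ × ℝ) : Fin (n + 1) → ℝ :=
  fun a => dl (α a) (β a) (p a)

noncomputable def TA (α β : Fin (n + 1) → Fin 4) (p : Fin (n + 1) → ℂ × ℝ) : Fin (n + 1) → ℝ :=
  fun a => ta (α a) (β a) (p a)

noncomputable def ff (D : Data l m n) (α : Fin (n + 1) → Fin 4) (p : Fin (n + 1) → ℂ × ℝ) :
    Tr l m := R D (TH α p) (yy D α p)

noncomputable def gam (D : Data l m n) (α β : Fin (n + 1) → Fin 4) (p : Fin (n + 1) → ℂ × ℝ) :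
    Tr l m → Tr l m := R D (DL α β p)

noncomputable def kk (D : Data l m n) (α : Fin (n + 1) → Fin 4) (p : Fin (n + 1) → ℂ × ℝ) :
    Tr l m →L[ℝ] Tr l m := fderiv ℝ (R D (TH α p)) (yy D α p)

noncomputable def kinv (D : Data l m n) (α : Fin (n + 1) → Fin 4) (p : Fin (n + 1) → ℂ × ℝ) :
    Tr l m →L[ℝ] Tr l m := fderiv ℝ (R D (-TH α p)) (ff D α p)

/-- The abelian connection. -/
noncomputable def BB (m : ℕ) (i : Fin (n + 1) → Fin l) (α : Fin (n + 1) → Fin 4)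
    (p : Fin (n + 1) → ℂ × ℝ) : (Fin (n + 1) → ℂ × ℝ) →L[ℝ] Tr l m →L[ℝ] Tr l m :=
  ∑ a, ((be (α a) (p a)).comp (ContinuousLinearMap.proj a)).smulRight (JJ m (i a))

end

def S_Flow : Prop :=
  ∀ (l m n : ℕ) (D : Data l m n),
    ContDiff ℝ ∞ (fun q : (Fin (n + 1) → ℝ) × Tr l m => R D q.1 q.2) ∧
    (∀ θ θ' v, R D θ (R D θ' v) = R D (θ + θ') v) ∧ (∀ v, R D 0 v = v) ∧
    (∀ θ v a, D.u a (R D θ v) = D.u a v) ∧
    (∀ θ t v a, D.u a (R D θ (rho m D.i t v)) = D.u a v) ∧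
    (∀ θ μ v, On D.i D.H μ v → On D.i D.H μ (R D θ v)) ∧
    (∀ θ θ' v, (∀ a, ∃ k : ℤ, D.u a v * θ a = D.u a v * θ' a + 2 * Real.pi * k) →
      R D θ v = R D θ' v) ∧
    (∀ θ θ' t v, (∀ a, D.u a v * θ a + t a = D.u a v * θ' a) →
      R D θ (rho m D.i t v) = R D θ' v)

def S_Rho : Prop :=
  ∀ (l m n : ℕ) (i : Fin (n + 1) → Fin l),
    ContDiff ℝ ∞ (rho m i) ∧
    (∀ t s, fderiv ℝ (rho m i) t s = (∑ a, s a • JJ m (i a)) * rho m i t) ∧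
    (∀ t j, rho m i t * JJ m j = JJ m j * rho m i t) ∧
    (∀ j j' : Fin l, JJ m j * JJ m j' = JJ m j' * JJ m j)

def S_Y : Prop :=
  ∀ (l m n : ℕ) (D : Data l m n),
    (∀ α : Fin (n + 1) → Fin 4, IsOpen (WW α)) ∧
    (⋃ α : Fin (n + 1) → Fin 4, WW α) = Base n ∧
    (∀ α, ∀ p ∈ WW α, ContDiffAt ℝ ∞ (yy D α) p ∧ ContDiffAt ℝ ∞ (TH α) p ∧
      On D.i D.H (fun a => mu (p a)) (yy D α p) ∧ ∀ a, 0 ≤ mu (p a) ∧ mu (p a) ≤ 1) ∧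
    (∀ α β, ∀ p ∈ WW α ∩ WW β, yy D α p = rho m D.i (TA α β p) (yy D β p) ∧
      ContDiffAt ℝ ∞ (TA α β) p ∧ ∀ᶠ p' in 𝓝 p, DL α β p' = DL α β p)

def S_Hae : Prop :=
  ∀ (l m n : ℕ) (D : Data l m n),
    ∃ Hf : Haefliger (Base n) (Tr l m) (Fin (n + 1) → Fin 4),
      Hf.W = WW ∧ Hf.f = ff D ∧ Hf.γ = gam D

def S_K : Prop :=
  ∀ (l m n : ℕ) (D : Data l m n),
    (∀ α, ∀ p ∈ WW α, ContDiffAt ℝ ∞ (kk D α) p ∧ ContDiffAt ℝ ∞ (kinv D α) p ∧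
      kk D α p * kinv D α p = 1 ∧ kinv D α p * kk D α p = 1) ∧
    ∀ α β, ∀ p ∈ WW α ∩ WW β,
      fderiv ℝ (gam D α β p) (ff D β p) = kk D α p * rho m D.i (TA α β p) * kinv D β p

/-- The gauge transform `k B k⁻¹ - dk k⁻¹`. -/
noncomputable def gauge {E 𝔸 : Type} [NormedAddCommGroup E] [NormedSpace ℝ E] [NormedRing 𝔸]
    [NormedAlgebra ℝ 𝔸] (k k' : E → 𝔸) (B : E → E →L[ℝ] 𝔸) (p : E) : E →L[ℝ] 𝔸 :=
  (ContinuousLinearMap.mulLeftRight ℝ 𝔸 (k p) (k' p)).comp (B p) -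
    ((ContinuousLinearMap.mul ℝ 𝔸).flip (k' p)).comp (fderiv ℝ k p)

def S_GaugeA : Prop :=
  ∀ (E 𝔸 : Type) [NormedAddCommGroup E] [NormedSpace ℝ E] [NormedRing 𝔸] [NormedAlgebra ℝ 𝔸]
    (k k' : E → 𝔸) (B : E → E →L[ℝ] 𝔸) (p : E),
    ContDiffAt ℝ ∞ k p → ContDiffAt ℝ ∞ k' p → ContDiffAt ℝ ∞ B p →
    (∀ᶠ y in 𝓝 p, k y * k' y = 1 ∧ k' y * k y = 1) →
    ContDiffAt ℝ ∞ (gauge k k' B) p ∧
      ∀ v w, curv (gauge k k' B) p v w = k p * curv B p v w * k' p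

def S_GaugeB : Prop :=
  ∀ (E 𝔸 : Type) [NormedAddCommGroup E] [NormedSpace ℝ E] [NormedRing 𝔸] [NormedAlgebra ℝ 𝔸]
    (k₁ k₁' k₂ k₂' ρ g : E → 𝔸) (B₁ B₂ : E → E →L[ℝ] 𝔸) (p : E),
    DifferentiableAt ℝ k₁ p → DifferentiableAt ℝ k₂ p → DifferentiableAt ℝ k₂' p →
    DifferentiableAt ℝ ρ p → k₁' p * k₁ p = 1 →
    (∀ᶠ y in 𝓝 p, k₂ y * k₂' y = 1 ∧ k₂' y * k₂ y = 1) →
    (∀ᶠ y in 𝓝 p, g y = k₁ y * ρ y * k₂' y) →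
    (∀ v, ρ p * B₂ p v = B₁ p v * ρ p + fderiv ℝ ρ p v) →
    DifferentiableAt ℝ g p ∧
      ∀ v, g p * gauge k₂ k₂' B₂ p v = gauge k₁ k₁' B₁ p v * g p + fderiv ℝ g p v

def S_B : Prop :=
  ∀ (l m n : ℕ) (i : Fin (n + 1) → Fin l),
    (∀ α, ∀ p ∈ WW α, ContDiffAt ℝ ∞ (BB m i α) p ∧ ∀ v w, curv (BB m i α) p v w =
      ∑ a, (-det3 (p a) (v a) (w a) / (2 * rr (p a) ^ 3)) • JJ m (i a)) ∧
    ∀ α β, ∀ p ∈ WW α ∩ WW β, DifferentiableAt ℝ (fun y => rho m i (TA α β y)) p ∧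
      ∀ v, rho m i (TA α β p) * BB m i β p v =
        BB m i α p v * rho m i (TA α β p) + fderiv ℝ (fun y => rho m i (TA α β y)) p v

/-! The Chern-Weil sum and Stokes on a box. -/

def S_CW : Prop :=
  ∀ n : ℕ, ∃ N : ℝ, N ≠ 0 ∧ ∀ (𝔸 : Type) [AddCommGroup 𝔸] [Module ℝ 𝔸]
    (P : MultilinearMap ℝ (fun _ : Fin (n + 1) => 𝔸) ℝ),
    (∀ (σ : Equiv.Perm (Fin (n + 1))) (X : Fin (n + 1) → 𝔸), P (fun t => X (σ t)) = P X) →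
    ∀ (c : Fin (n + 1) → ℝ) (X : Fin (n + 1) → 𝔸) (M : Fin (2 * n + 2) → Fin (2 * n + 2) → 𝔸),
    (∀ a, M (ev a) (od a) = c a • X a ∧ M (od a) (ev a) = -(c a • X a)) →
    (∀ s s', (∀ a, ¬(s = ev a ∧ s' = od a) ∧ ¬(s = od a ∧ s' = ev a)) → M s s' = 0) →
    ∑ σ : Equiv.Perm (Fin (2 * n + 2)),
      ((Equiv.Perm.sign σ : ℤ) : ℝ) * P (fun t => M (σ (ev t)) (σ (od t))) =
      N * (∏ a, c a) * P X

/-- Spherical coordinates on the product of unit spheres. -/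
noncomputable def FF (n : ℕ) (x : Fin (2 * n + 2) → ℝ) : Fin (n + 1) → ℂ × ℝ :=
  fun a => ((Real.sin (x (ev a)) : ℂ) * Complex.exp (Complex.I * x (od a)), Real.cos (x (ev a)))

noncomputable def dF (n : ℕ) (x : Fin (2 * n + 2) → ℝ) (s : Fin (2 * n + 2)) :
    Fin (n + 1) → ℂ × ℝ := fderiv ℝ (FF n) x (Pi.single s 1)

/-- The upper corner of the box. -/
noncomputable def bx (n : ℕ) : Fin (2 * n + 2) → ℝ :=
  fun s => if s.val % 2 = 0 then Real.pi else 2 * Real.pi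

def S_F : Prop :=
  ∀ n : ℕ, ContDiff ℝ ∞ (FF n) ∧ (∀ x, FF n x ∈ Base n) ∧ (∀ x a, rr (FF n x a) = 1) ∧
    ∀ x s a, dF n x s a =
      if s = ev a then ((Real.cos (x (ev a)) : ℂ) * Complex.exp (Complex.I * x (od a)),
        -Real.sin (x (ev a)))
      else if s = od a then
        ((Real.sin (x (ev a)) : ℂ) * Complex.I * Complex.exp (Complex.I * x (od a)), 0)
      else 0

def S_M : Prop :=
  ∀ (n : ℕ) (𝔸 : Type) [AddCommGroup 𝔸] [Module ℝ 𝔸] (X : Fin (n + 1) → 𝔸)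
    (x : Fin (2 * n + 2) → ℝ) (M : Fin (2 * n + 2) → Fin (2 * n + 2) → 𝔸),
    (∀ s s', M s s' = ∑ a, (-det3 (FF n x a) (dF n x s a) (dF n x s' a) /
      (2 * rr (FF n x a) ^ 3)) • X a) →
    (∀ a, M (ev a) (od a) = (-Real.sin (x (ev a)) / 2) • X a ∧
      M (od a) (ev a) = -((-Real.sin (x (ev a)) / 2) • X a)) ∧
    ∀ s s', (∀ a, ¬(s = ev a ∧ s' = od a) ∧ ¬(s = od a ∧ s' = ev a)) → M s s' = 0

def S_Stokes : Prop :=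
  ∀ (k : ℕ) (ζ : (Fin (k + 1) → ℝ) → (Fin (k + 1) → ℝ) [⋀^Fin k]→L[ℝ] ℝ)
    (lo hi : Fin (k + 1) → ℝ), Differentiable ℝ ζ →
    (∀ s : Fin (k + 1), ContDiff ℝ 1 fun x => ζ x (fun t => Pi.single (s.succAbove t) 1)) →
    lo ≤ hi →
    (∀ (s : Fin (k + 1)) (x : Fin (k + 1) → ℝ),
      ζ (Function.update x s (lo s)) (fun t => Pi.single (s.succAbove t) 1) =
      ζ (Function.update x s (hi s)) (fun t => Pi.single (s.succAbove t) 1)) →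
    ∫ x in Set.Icc lo hi, extDeriv ζ x (fun s => Pi.single s 1) = 0

def S_Pull : Prop :=
  ∀ (n : ℕ) (η : (Fin (n + 1) → ℂ × ℝ) → (Fin (n + 1) → ℂ × ℝ) [⋀^Fin (2 * n + 1)]→L[ℝ] ℝ),
    ContDiffOn ℝ ∞ η (Base n) →
    ∫ x in Set.Icc 0 (bx n), extDeriv η (FF n x) (dF n x) = 0

def S_Int : Prop :=
  ∀ n : ℕ, ∫ x in Set.Icc 0 (bx n), ∏ a : Fin (n + 1), Real.sin (x (ev a)) ≠ 0

end Pool.Agent.P.MP_878f14_gt
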