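import Pool.Agent.P.MP_878f14_gt.Def

/-!
The integral of an exact form over the product of spheres vanishes.
-/

open Filter Topology MeasureTheory
open scoped ContDiff

namespace Pool.Agent.P.MP_878f14_gt

theorem pull_open (n : ℕ) : IsOpen (Base n) := by
  have : Base n = ⋂ a, (fun p : Fin (n + 1) → ℂ × ℝ => p a) ⁻¹' {0}ᶜ := by
    ext p; simp [Base]
  rw [this]
  exact isOpen_iInter_of_finite fun a => isOpen_compl_singleton.preimage (continuous_apply a)

theorem pull_ev_ne_od {n : ℕ} (a b : Fin (n + 1)) : ev a ≠ od b := by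
  intro h
  have := congrArg Fin.val h
  simp only [ev, od] at this
  omega

theorem pull_od_inj {n : ℕ} {a b : Fin (n + 1)} (h : od a = od b) : a = b := by
  have := congrArg Fin.val h
  simp only [od] at this
  ext; omega

theorem pull_cases {n : ℕ} (s : Fin (2 * n + 2)) : (∃ a, s = ev a) ∨ ∃ a, s = od a := by
  have hs := s.isLt
  rcases Nat.mod_two_eq_zero_or_one s.val with h | h
  · left
    refine ⟨⟨s.val / 2, by omega⟩, ?_⟩
    ext; simp only [ev]; omega
  · right
    refine ⟨⟨s.val / 2, by omega⟩, ?_⟩
    ext; simp only [od]; omega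

theorem pull_bx_ev {n : ℕ} (a : Fin (n + 1)) : bx n (ev a) = Real.pi := by
  have : (ev a).val % 2 = 0 := by simp only [ev]; omega
  simp only [bx, this, if_true]

theorem pull_bx_od {n : ℕ} (a : Fin (n + 1)) : bx n (od a) = 2 * Real.pi := by
  have : ¬ (od a).val % 2 = 0 := by simp only [od]; omega
  simp only [bx, this, if_false]

theorem pull_exp {n : ℕ} (x : Fin (2 * n + 2) → ℝ) (a b : Fin (n + 1)) :
    Complex.exp (Complex.I * (Function.update x (od a) 0 (od b) : ℝ))
      = Complex.exp (Complex.I * (Function.update x (od a) (2 * Real.pi) (od b) : ℝ)) := by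
  by_cases h : od b = od a
  · rw [h, Function.update_self, Function.update_self]
    have : Complex.I * ((2 * Real.pi : ℝ) : ℂ) = 2 * Real.pi * Complex.I := by push_cast; ring
    rw [this, Complex.exp_two_pi_mul_I]
    simp
  · rw [Function.update_of_ne h, Function.update_of_ne h]

theorem pPull (hS : S_Stokes) (hF : S_F) : S_Pull := by
  intro n η hη
  obtain ⟨hsm, hb, -, hd⟩ := hF n
  have hηa : ∀ x, ContDiffAt ℝ ∞ η (FF n x) := fun x =>
    hη.contDiffAt ((pull_open n).mem_nhds (hb x))
  have h1 : ContDiff ℝ ∞ (fun x => η (FF n x)) :=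
    contDiff_iff_contDiffAt.2 fun x => (hηa x).comp x hsm.contDiffAt
  have h2 : ContDiff ℝ ∞ (fderiv ℝ (FF n)) := hsm.fderiv_right (by simp)
  have key := hS (2 * n + 1) (fun x => (η (FF n x)).compContinuousLinearMap (fderiv ℝ (FF n) x))
    0 (bx n) ?_ ?_ ?_ ?_
  · refine Eq.trans ?_ key
    congr 1
    funext x
    rw [extDeriv_pullback ((hηa x).differentiableAt (by simp))
      ((hsm.of_le (m := 2) (WithTop.coe_le_coe.2 (le_top : (2 : ℕ∞) ≤ ⊤))).contDiffAt (x := x))
      (by simp only [minSmoothness_of_isRCLikeNormedField]; exact le_rfl)]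
    rfl
  · intro x
    exact (h1.differentiable (by simp) x).continuousAlternatingMapCompContinuousLinearMap
      (h2.differentiable (by simp) x)
  · intro s
    have hB := (ContinuousAlternatingMap.toContinuousMultilinearMapCLM ℝ :
      ((Fin (n + 1) → ℂ × ℝ) [⋀^Fin (2 * n + 1)]→L[ℝ] ℝ) →L[ℝ]
        _).analyticOnNhd_uncurry_of_multilinear (s := Set.univ)
    have hB' := hB.contDiff (n := 1)
    have h3 : ContDiff ℝ 1 (fun x => (η (FF n x), fun t : Fin (2 * n + 1) =>
        fderiv ℝ (FF n) x (Pi.single (s.succAbove t) 1))) :=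
      (h1.of_le (by exact_mod_cast le_top)).prodMk (contDiff_pi.2 fun t =>
        (h2.of_le (by exact_mod_cast le_top)).clm_apply contDiff_const)
    exact hB'.comp h3
  · intro s
    rcases pull_cases s with ⟨a, rfl⟩ | ⟨a, rfl⟩
    · rw [pull_bx_ev]; exact Real.pi_pos.le
    · rw [pull_bx_od]; have := Real.pi_pos; simp only [Pi.zero_apply]; positivity
  · intro s x
    have e : ∀ y, (η (FF n y)).compContinuousLinearMap (fderiv ℝ (FF n) y)
        (fun t => Pi.single (s.succAbove t) 1) = η (FF n y) (fun t => dF n y (s.succAbove t)) :=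
      fun y => rfl
    rw [e, e]
    rcases pull_cases s with ⟨a, rfl⟩ | ⟨a, rfl⟩
    · obtain ⟨t, ht⟩ := Fin.exists_succAbove_eq (pull_ev_ne_od a a).symm
      have z : ∀ y : Fin (2 * n + 2) → ℝ, Real.sin (y (ev a)) = 0 →
          η (FF n y) (fun t => dF n y ((ev a).succAbove t)) = 0 := by
        intro y hy
        apply (η (FF n y)).map_coord_zero t
        rw [ht]
        funext b
        rw [hd, if_neg (pull_ev_ne_od b a).symm]
        split_ifs with h
        · rw [← pull_od_inj h, hy]; simp
        · rfl
      rw [z, z]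
      · rw [Function.update_self, pull_bx_ev, Real.sin_pi]
      · rw [Function.update_self]; simp
    · have e1 : ∀ (b : Fin (n + 1)) (r : ℝ), Function.update x (od a) r (ev b) = x (ev b) :=
        fun b r => Function.update_of_ne (pull_ev_ne_od b a) _ _
      have e2 : FF n (Function.update x (od a) 0) = FF n (Function.update x (od a) (2 * Real.pi)) := by
        funext b
        simp only [FF, e1, pull_exp]
      have e3 : ∀ s, dF n (Function.update x (od a) 0) s
          = dF n (Function.update x (od a) (2 * Real.pi)) s := by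
        intro s
        funext b
        rw [hd, hd]
        simp only [e1, pull_exp]
      rw [pull_bx_od, Pi.zero_apply, e2]
      simp only [e3]

end Pool.Agent.P.MP_878f14_gt
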