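import Mathlib

/-!
Haefliger structures, their normal cocycle, connections and Chern-Weil forms.
-/

open Filter Topology
open scoped ContDiff

namespace Pool.Agent.P.MP_878f14_gt

/-- A smooth Haefliger structure on the open set `U` of `E` with transversal `T`: an open cover
`W a`, smooth maps `f a : W a → T`, and for `p ∈ W a ∩ W b` the germ at `f b p` of a smooth map
`γ a b p` sending `f b p` to `f a p`, locally constant in `p` (continuity for the sheaf topology),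
with `γ a a p = id` and `γ a c p = γ a b p ∘ γ b c p` as germs. -/
structure Haefliger {E : Type} [NormedAddCommGroup E] [NormedSpace ℝ E] (U : Set E)
    (T : Type) [NormedAddCommGroup T] [NormedSpace ℝ T] (ι : Type) where
  W : ι → Set E
  f : ι → E → T
  γ : ι → ι → E → T → T
  isOpen : ∀ a, IsOpen (W a)
  cover : ⋃ a, W a = U
  smooth_f : ∀ a, ContDiffOn ℝ ∞ (f a) (W a)
  smooth_γ : ∀ a b, ∀ p ∈ W a ∩ W b, ∀ᶠ y in 𝓝 (f b p), ContDiffAt ℝ ∞ (γ a b p) y
  map_f : ∀ a b, ∀ p ∈ W a ∩ W b, γ a b p (f b p) = f a p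
  locConst : ∀ a b, ∀ p ∈ W a ∩ W b, ∀ᶠ p' in 𝓝 p, γ a b p' =ᶠ[𝓝 (f b p')] γ a b p
  refl : ∀ a, ∀ p ∈ W a, γ a a p =ᶠ[𝓝 (f a p)] id
  cocycle : ∀ a b c, ∀ p ∈ W a ∩ W b ∩ W c, γ a c p =ᶠ[𝓝 (f c p)] γ a b p ∘ γ b c p

section

variable {E : Type} [NormedAddCommGroup E] [NormedSpace ℝ E]
  {T : Type} [NormedAddCommGroup T] [NormedSpace ℝ T]

/-- Transition functions of the normal bundle: the derivative of the holonomy germ. -/
noncomputable def Haefliger.g {U : Set E} {ι : Type} (H : Haefliger U T ι) (a b : ι) (p : E) :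
    T →L[ℝ] T :=
  fderiv ℝ (H.γ a b p) (H.f b p)

/-- `A` is a connection on the normal bundle: smooth `End T`-valued one-forms `A a` on `W a`
with `g_ab A_b = A_a g_ab + d g_ab` on the overlaps. -/
def Haefliger.IsConn {U : Set E} {ι : Type} (H : Haefliger U T ι)
    (A : ι → E → E →L[ℝ] T →L[ℝ] T) : Prop :=
  (∀ a, ContDiffOn ℝ ∞ (A a) (H.W a)) ∧
  ∀ a b, ∀ p ∈ H.W a ∩ H.W b, DifferentiableAt ℝ (H.g a b) p ∧
    ∀ v, H.g a b p * A b p v = A a p v * H.g a b p + fderiv ℝ (H.g a b) p v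

/-- Curvature `dA + A ∧ A` of a one-form with values in an algebra. -/
noncomputable def curv {𝔸 : Type} [NormedRing 𝔸] [NormedAlgebra ℝ 𝔸] (A : E → E →L[ℝ] 𝔸)
    (p v w : E) : 𝔸 :=
  fderiv ℝ A p v w - fderiv ℝ A p w v + (A p v * A p w - A p w * A p v)

/-- The positions `2t` and `2t+1` in `Fin (2n+2)`. -/
def ev {n : ℕ} (t : Fin (n + 1)) : Fin (2 * n + 2) := ⟨2 * t, by omega⟩
def od {n : ℕ} (t : Fin (n + 1)) : Fin (2 * n + 2) := ⟨2 * t + 1, by omega⟩

/-- The Chern-Weil form `P(Ω, …, Ω)` (up to a positive constant), evaluated on `2n+2` vectors. -/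
noncomputable def cw {𝔸 : Type} [NormedRing 𝔸] [NormedAlgebra ℝ 𝔸] {n : ℕ}
    (P : MultilinearMap ℝ (fun _ : Fin (n + 1) => 𝔸) ℝ) (Ω : E → E → 𝔸)
    (v : Fin (2 * n + 2) → E) : ℝ :=
  ∑ σ : Equiv.Perm (Fin (2 * n + 2)),
    ((Equiv.Perm.sign σ : ℤ) : ℝ) * P fun t => Ω (v (σ (ev t))) (v (σ (od t)))

end

/-- The transversal `ℂ^l × ℝ^m`, of real dimension `2l + m`. -/
abbrev Tr (l m : ℕ) : Type := (Fin l → ℂ) × (Fin m → ℝ)

/-- The infinitesimal rotation sending (u, h) to ((i x_j u_j)_j, 0); these form the Lie algebra of the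
standard torus of `SO(2l + m)`. -/
noncomputable def rot {l : ℕ} (m : ℕ) (x : Fin l → ℝ) : Tr l m →L[ℝ] Tr l m :=
  LinearMap.toContinuousLinearMap
    { toFun := fun v => (fun j => Complex.I * x j * v.1 j, 0)
      map_add' := fun v w => by ext j <;> simp [mul_add]
      map_smul' := fun c v => by ext j <;> simp [mul_left_comm] }

/-- The base manifold (ℝ^3 ∖ 0)^(n+1). -/
def Base (n : ℕ) : Set (Fin (n + 1) → ℂ × ℝ) := {p | ∀ a, p a ≠ 0}

end Pool.Agent.P.MP_878f14_gt
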