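import Pool.Agent.P.MP_878f14_gt.St

/-!
The definitions of the final statement (with `Haefliger`, `Haefliger.g`, `ev`, `od`, `Tr`, `Base`
from the file St).
-/

open scoped ContDiff

namespace Pool.Agent.P.MP_878f14_gt

section

variable {E : Type} [NormedAddCommGroup E] [NormedSpace ℝ E]
  {𝔸 : Type} [NormedRing 𝔸] [NormedAlgebra ℝ 𝔸]

/-- `P` is multilinear, symmetric and invariant under conjugation by invertible elements. -/
def IsInvPoly {N : ℕ} (P : (Fin N → 𝔸) → ℝ) : Prop :=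
  (∀ (X : Fin N → 𝔸) (t : Fin N) (a b : 𝔸) (c : ℝ), P (Function.update X t (a + c • b)) =
    P (Function.update X t a) + c * P (Function.update X t b)) ∧
  (∀ (σ : Equiv.Perm (Fin N)) (X : Fin N → 𝔸), P (fun t => X (σ t)) = P X) ∧
  ∀ (g g' : 𝔸), g * g' = 1 → g' * g = 1 → ∀ X : Fin N → 𝔸, P (fun t => g * X t * g') = P X

/-- The derivative of `f` at `p` in the direction `v`. -/
noncomputable def dd (f : E → 𝔸) (p v : E) : 𝔸 := fderiv ℝ f p v

/-- A connection for the cocycle `g` on the cover `W`: smooth one-forms `A a` on `W a` with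
`g_ab A_b = A_a g_ab + d g_ab` on the overlaps. -/
def IsConnection {ι : Type} (W : ι → Set E) (g : ι → ι → E → 𝔸) (A : ι → E → E → 𝔸) : Prop :=
  (∀ a p, IsLinearMap ℝ (A a p)) ∧ (∀ a v, ContDiffOn ℝ ∞ (fun p => A a p v) (W a)) ∧
  ∀ a b, ∀ p ∈ W a ∩ W b, DifferentiableAt ℝ (g a b) p ∧
    ∀ v, g a b p * A b p v = A a p v * g a b p + dd (g a b) p v

/-- The curvature `dA + A ∧ A`. -/
noncomputable def curvature (A : E → E → 𝔸) (p v w : E) : 𝔸 :=
  dd (fun y => A y w) p v - dd (fun y => A y v) p w + (A p v * A p w - A p w * A p v)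

/-- `Θ` is the exterior derivative of a smooth `k`-form on `U`. -/
def IsExact (U : Set E) {k : ℕ} (Θ : E → (Fin (k + 1) → E) → ℝ) : Prop :=
  ∃ η : E → E [⋀^Fin k]→L[ℝ] ℝ, ContDiffOn ℝ ∞ η U ∧ ∀ p ∈ U, ∀ v, extDeriv η p v = Θ p v

end

/-- The Chern-Weil form `P(Ω, …, Ω)` (up to a positive constant), evaluated on `2n+2` vectors. -/
noncomputable def chernWeil {E 𝔸 : Type} {n : ℕ} (P : (Fin (n + 1) → 𝔸) → ℝ) (Ω : E → E → 𝔸)
    (v : Fin (2 * n + 2) → E) : ℝ :=
  ∑ σ : Equiv.Perm (Fin (2 * n + 2)),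
    ((Equiv.Perm.sign σ : ℤ) : ℝ) * P fun t => Ω (v (σ (ev t))) (v (σ (od t)))

/-- Some Haefliger structure on `U` with transversal `T` has a connection on its normal bundle
whose Chern-Weil form for `P` is a global form `Θ` on `U` that is not exact. -/
def NonzeroClass {E : Type} [NormedAddCommGroup E] [NormedSpace ℝ E] (U : Set E)
    {T : Type} [NormedAddCommGroup T] [NormedSpace ℝ T] {n : ℕ}
    (P : (Fin (n + 1) → T →L[ℝ] T) → ℝ) : Prop :=
  ∃ (ι : Type) (H : Haefliger U T ι) (A : ι → E → E → T →L[ℝ] T)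
    (Θ : E → (Fin (2 * n + 2) → E) → ℝ), IsConnection H.W H.g A ∧
    (∀ a, ∀ p ∈ H.W a, ∀ v, Θ p v = chernWeil P (curvature (A a) p) v) ∧
    ¬IsExact U (k := 2 * n + 1) Θ

/-- Real linear endomorphisms of the transversal `ℂ^l × ℝ^m`. -/
abbrev En (l m : ℕ) : Type := Tr l m →L[ℝ] Tr l m

/-- `X` is the infinitesimal rotation sending (u, h) to ((i x_j u_j)_j, 0). -/
def IsRot {l m : ℕ} (x : Fin l → ℝ) (X : En l m) : Prop :=
  ∀ v, X v = (fun j => Complex.I * x j * v.1 j, 0)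

end Pool.Agent.P.MP_878f14_gt
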